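import Pool.Agent.Lib.MP_ce3dc4_an.Defs

-- part Pool.Agent.Lib.MP_ce3dc4_an.Polar
section

/-!
Cylindrical coordinates.
-/

open MeasureTheory Filter Topology Set
open scoped ContDiff InnerProductSpace ENNReal Real

namespace Pool.Agent.Lib.MP_ce3dc4_an

/-- identification of the complex plane with `Pl` -/
noncomputable def io : ℂ ≃ₗᵢ[ℝ] Pl := Complex.orthonormalBasisOneI.repr

/-- unit vector at angle `θ` -/
noncomputable def ee (θ : ℝ) : Pl := io (Complex.exp (θ * Complex.I))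

theorem norm_ee (θ : ℝ) : ‖ee θ‖ = 1 := by
  simp [ee, Complex.norm_exp_ofReal_mul_I]

theorem continuous_ee : Continuous ee := by
  unfold ee
  fun_prop

/-- rotation by the angle `s` -/
noncomputable def rot (s : ℝ) : Pl ≃ₗᵢ[ℝ] Pl :=
  io.symm.trans ((rotation (Circle.exp s)).trans io)

theorem rot_ee (s r θ : ℝ) : rot s (r • ee θ) = r • ee (θ + s) := by
  simp only [rot, ee, LinearIsometryEquiv.trans_apply, map_smul,
    LinearIsometryEquiv.symm_apply_apply, rotation_apply, Circle.coe_exp]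
  congr 2
  rw [← Complex.exp_add]
  congr 1
  push_cast
  ring

/-- radial measure `r dr` on the half line -/
noncomputable def rho : Measure ℝ :=
  (volume.restrict (Ioi (0 : ℝ))).withDensity (fun r => ENNReal.ofReal r)

/-- angular measure -/
noncomputable def tau : Measure ℝ := volume.restrict (Ioo (-π) π)

instance : SFinite rho := by unfold rho; infer_instance
instance : IsFiniteMeasure tau := by unfold tau; infer_instance

theorem tau_univ : tau univ = ENNReal.ofReal (2 * π) := by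
  simp only [tau, Measure.restrict_apply_univ, Real.volume_Ioo]
  congr 1; ring

theorem lintegral_rho {g : ℝ → ℝ≥0∞} (hg : Measurable g) :
    ∫⁻ r, g r ∂rho = ∫⁻ r in Ioi (0 : ℝ), ENNReal.ofReal r * g r := by
  unfold rho
  rw [lintegral_withDensity_eq_lintegral_mul _ (by fun_prop) hg]
  rfl

theorem mp_polar : MeasurePreserving (fun q : ℝ × ℝ => q.2 • ee q.1) (tau.prod rho)
    (volume : Measure Pl) := by
  have hc : Continuous (fun q : ℝ × ℝ => q.2 • ee q.1) := by
    have := continuous_ee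
    fun_prop
  refine ⟨hc.measurable, ?_⟩
  apply Measure.ext_of_lintegral
  intro f hf
  rw [lintegral_map hf hc.measurable]
  rw [← (io.measurePreserving).lintegral_comp hf, ← Complex.lintegral_comp_polarCoord_symm]
  have hm : Measurable (fun q : ℝ × ℝ => f (q.2 • ee q.1)) := hf.comp hc.measurable
  rw [lintegral_prod_symm _ hm.aemeasurable]
  have h1 : Measurable (fun r : ℝ => ∫⁻ θ, f (r • ee θ) ∂tau) := hm.lintegral_prod_left'
  rw [lintegral_rho h1]
  have ht : polarCoord.target = Ioi (0 : ℝ) ×ˢ Ioo (-π) π := rfl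
  rw [ht, Measure.volume_eq_prod, ← Measure.prod_restrict]
  have hm2 : Measurable (fun p : ℝ × ℝ =>
      ENNReal.ofReal p.1 • f (io (Complex.polarCoord.symm p))) := by
    have : (fun p : ℝ × ℝ => ENNReal.ofReal p.1 • f (io (Complex.polarCoord.symm p))) =
        fun p : ℝ × ℝ => ENNReal.ofReal p.1 * f (io (p.1 * (Real.cos p.2 +
          Real.sin p.2 * Complex.I))) := by
      funext p; simp
    rw [this]
    refine Measurable.mul (by fun_prop) (hf.comp ?_)
    apply Continuous.measurable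
    fun_prop
  rw [lintegral_prod _ hm2.aemeasurable]
  refine lintegral_congr fun r => ?_
  rw [← lintegral_const_mul' _ _ ENNReal.ofReal_ne_top]
  refine lintegral_congr fun θ => ?_
  simp only [smul_eq_mul, Complex.polarCoord_symm_apply]
  congr 2
  rw [ee, ← map_smul, Complex.exp_mul_I]
  simp only [Complex.real_smul, Complex.ofReal_cos, Complex.ofReal_sin]

variable {Z : Type*} [NormedAddCommGroup Z] [InnerProductSpace ℝ Z] [FiniteDimensional ℝ Z]
  [MeasurableSpace Z] [BorelSpace Z]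

variable (Z) in
/-- the measure `r dr dz` -/
noncomputable def sig : Measure (ℝ × Z) := rho.prod volume

instance : SFinite (sig Z) := by unfold sig; infer_instance

/-- cylindrical coordinates -/
noncomputable def Psi (q : ℝ × (ℝ × Z)) : WithLp 2 (Pl × Z) :=
  WithLp.toLp 2 (q.2.1 • ee q.1, q.2.2)

omit [InnerProductSpace ℝ Z] [FiniteDimensional ℝ Z] [MeasurableSpace Z] [BorelSpace Z] in
theorem continuous_Psi : Continuous (Psi : ℝ × (ℝ × Z) → WithLp 2 (Pl × Z)) := by
  unfold Psi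
  have := continuous_ee
  fun_prop

theorem mp_Psi : MeasurePreserving (Psi : ℝ × (ℝ × Z) → WithLp 2 (Pl × Z))
    (tau.prod (sig Z)) volume := by
  have h1 : MeasurePreserving (MeasurableEquiv.prodAssoc.symm :
      ℝ × (ℝ × Z) ≃ᵐ (ℝ × ℝ) × Z) (tau.prod (rho.prod volume)) ((tau.prod rho).prod volume) :=
    (measurePreserving_prodAssoc tau rho volume).symm
  have h2 := mp_polar.prod (MeasurePreserving.id (volume : Measure Z))
  have h3 := WithLp.volume_preserving_toLp Pl Z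
  exact h3.comp (h2.comp h1)

theorem lintegral_Psi {f : WithLp 2 (Pl × Z) → ℝ≥0∞} (hf : Measurable f) :
    ∫⁻ x, f x = ∫⁻ θ, ∫⁻ q, f (Psi (θ, q)) ∂(sig Z) ∂tau := by
  rw [← mp_Psi.lintegral_comp hf,
    lintegral_prod _ (hf.fun_comp continuous_Psi.measurable).aemeasurable]

/-- the substitution `t = r^2/(2a)` -/
theorem lintegral_rho_sq {a : ℝ} (ha : 0 < a) {g : ℝ → ℝ≥0∞} (hg : Measurable g) :
    ∫⁻ r, g (r ^ 2 / (2 * a)) ∂rho = ENNReal.ofReal a * ∫⁻ t in Ioi (0 : ℝ), g t := by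
  rw [lintegral_rho (hg.fun_comp (by fun_prop))]
  have himg : (fun r : ℝ => r ^ 2 / (2 * a)) '' Ioi 0 = Ioi 0 := by
    ext t
    constructor
    · rintro ⟨r, hr, rfl⟩
      have : 0 < r := hr
      show 0 < r ^ 2 / (2 * a)
      positivity
    · intro ht
      have ht' : 0 < t := ht
      refine ⟨√(2 * a * t), Real.sqrt_pos.2 (by positivity), ?_⟩
      show √(2 * a * t) ^ 2 / (2 * a) = t
      rw [Real.sq_sqrt (by positivity)]
      field_simp
  have := lintegral_image_eq_lintegral_abs_deriv_mul (f := fun r : ℝ => r ^ 2 / (2 * a))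
    (f' := fun r => r / a) (s := Ioi 0) measurableSet_Ioi (fun r _ => by
      have : HasDerivAt (fun r : ℝ => r ^ 2 / (2 * a)) (r / a) r := by
        have h := (hasDerivAt_pow 2 r).div_const (2 * a)
        have e : ((2 : ℕ) : ℝ) * r ^ (2 - 1) / (2 * a) = r / a := by
          norm_num; field_simp
        rwa [e] at h
      exact this.hasDerivWithinAt) (by
      intro r hr s hs h
      have hr' : 0 < r := hr
      have hs' : 0 < s := hs
      simp only at h
      have h2 : r ^ 2 = s ^ 2 := by field_simp at h; linarith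
      exact (pow_left_inj₀ hr'.le hs'.le two_ne_zero).1 h2) g
  rw [himg] at this
  rw [this, ← lintegral_const_mul' _ _ ENNReal.ofReal_ne_top]
  refine setLIntegral_congr_fun measurableSet_Ioi fun r hr => ?_
  have hr' : 0 < r := hr
  rw [← mul_assoc, ← ENNReal.ofReal_mul ha.le, abs_of_pos (by positivity)]
  congr 2
  field_simp

/-- the map `(r, z) ↦ (r^2/(2a), z)` -/
noncomputable def TT (a : ℝ) (q : ℝ × Z) : WithLp 2 (ℝ × Z) :=
  WithLp.toLp 2 (q.1 ^ 2 / (2 * a), q.2)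

theorem lintegral_toLp {g : WithLp 2 (ℝ × Z) → ℝ≥0∞} (hg : Measurable g) :
    ∫⁻ x, g x = ∫⁻ z : Z, ∫⁻ t : ℝ, g (WithLp.toLp 2 (t, z)) := by
  rw [← (WithLp.volume_preserving_toLp ℝ Z).lintegral_comp hg, Measure.volume_eq_prod,
    lintegral_prod_symm]
  exact (hg.comp (WithLp.volume_preserving_toLp ℝ Z).measurable).aemeasurable

theorem lintegral_sig {g : ℝ × Z → ℝ≥0∞} (hg : Measurable g) :
    ∫⁻ q, g q ∂(sig Z) = ∫⁻ z : Z, ∫⁻ r, g (r, z) ∂rho := by
  unfold sig
  rw [lintegral_prod_symm _ hg.aemeasurable]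

theorem lintegral_TT {a : ℝ} (ha : 0 < a) {g : WithLp 2 (ℝ × Z) → ℝ≥0∞} (hg : Measurable g)
    (h0 : ∀ x, x.fst ≤ 0 → g x = 0) :
    ∫⁻ q, g (TT a q) ∂(sig Z) = ENNReal.ofReal a * ∫⁻ x, g x := by
  have hT : Measurable (TT a : ℝ × Z → WithLp 2 (ℝ × Z)) := by
    apply Continuous.measurable
    unfold TT
    fun_prop
  rw [lintegral_sig (hg.fun_comp hT), lintegral_toLp hg,
    ← lintegral_const_mul' _ _ ENNReal.ofReal_ne_top]
  refine lintegral_congr fun z => ?_
  have hgz : Measurable fun t : ℝ => g (WithLp.toLp 2 (t, z)) :=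
    hg.comp (Continuous.measurable (by fun_prop))
  have := lintegral_rho_sq ha hgz
  simp only [TT]
  rw [this]
  congr 1
  rw [← lintegral_indicator measurableSet_Ioi]
  refine lintegral_congr fun t => ?_
  by_cases ht : t ∈ Ioi (0 : ℝ)
  · rw [indicator_of_mem ht]
  · rw [indicator_of_notMem ht, h0]
    simpa using ht

theorem le_lintegral_sig {a : ℝ} (ha : 0 < a) {g : WithLp 2 (ℝ × Z) → ℝ≥0∞} (hg : Measurable g)
    (h0 : ∀ x, x.fst < a → g x = 0) :
    ENNReal.ofReal a * ∫⁻ x, g x ≤ ∫⁻ q, g (WithLp.toLp 2 q) ∂(sig Z) := by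
  have hT : Measurable (WithLp.toLp 2 : ℝ × Z → WithLp 2 (ℝ × Z)) :=
    (WithLp.volume_preserving_toLp ℝ Z).measurable
  rw [lintegral_sig (hg.fun_comp hT), lintegral_toLp hg,
    ← lintegral_const_mul' _ _ ENNReal.ofReal_ne_top]
  refine lintegral_mono fun z => ?_
  have hgz : Measurable fun t : ℝ => g (WithLp.toLp 2 (t, z)) :=
    hg.comp (Continuous.measurable (by fun_prop))
  rw [lintegral_rho hgz, ← lintegral_const_mul' _ _ ENNReal.ofReal_ne_top,
    ← lintegral_indicator measurableSet_Ioi]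
  refine lintegral_mono fun t => ?_
  by_cases ht : t < a
  · simp only
    rw [h0 _ (by simpa using ht)]
    simp
  · push Not at ht
    have : t ∈ Ioi (0 : ℝ) := lt_of_lt_of_le ha ht
    simp only
    rw [indicator_of_mem this]
    gcongr

theorem lintegral_sig_le {b : ℝ} {g : WithLp 2 (ℝ × Z) → ℝ≥0∞} (hg : Measurable g)
    (h0 : ∀ x, b < x.fst → g x = 0) :
    ∫⁻ q, g (WithLp.toLp 2 q) ∂(sig Z) ≤ ENNReal.ofReal b * ∫⁻ x, g x := by
  have hT : Measurable (WithLp.toLp 2 : ℝ × Z → WithLp 2 (ℝ × Z)) :=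
    (WithLp.volume_preserving_toLp ℝ Z).measurable
  rw [lintegral_sig (hg.fun_comp hT), lintegral_toLp hg,
    ← lintegral_const_mul' _ _ ENNReal.ofReal_ne_top]
  refine lintegral_mono fun z => ?_
  have hgz : Measurable fun t : ℝ => g (WithLp.toLp 2 (t, z)) :=
    hg.comp (Continuous.measurable (by fun_prop))
  rw [lintegral_rho hgz, ← lintegral_const_mul' _ _ ENNReal.ofReal_ne_top]
  refine (setLIntegral_le_lintegral _ _).trans (lintegral_mono fun t => ?_)
  by_cases ht : b < t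
  · simp only
    rw [h0 _ (by simpa using ht)]
    simp
  · push Not at ht
    simp only
    gcongr

end Pool.Agent.Lib.MP_ce3dc4_an
end

-- part Pool.Agent.Lib.MP_ce3dc4_an.Slice
section

/-!
The inequality on a half-hyperplane slice.
-/

open MeasureTheory Filter Topology Set
open scoped ContDiff InnerProductSpace ENNReal Real

set_option linter.unusedSectionVars false

namespace Pool.Agent.Lib.MP_ce3dc4_an

theorem enorm_sq {V : Type*} [SeminormedAddCommGroup V] (x : V) :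
    ‖x‖ₑ ^ 2 = ENNReal.ofReal (‖x‖ ^ 2) := by
  rw [← ofReal_norm, ENNReal.ofReal_pow (norm_nonneg _)]

/-- one-dimensional weighted Poincare inequality -/
theorem oneD {α β c : ℝ} (hα : 0 < α) (hc : 0 ≤ c) (hcb : c * (β ^ 2 - α ^ 2) ≤ 1)
    {u a : ℝ → ℝ} (hu : ∀ r, HasDerivAt u (a r) r) (ha : Continuous a)
    (h0 : ∀ r, 0 < r → (r < α ∨ β < r) → u r = 0 ∧ a r = 0) :
    ∫⁻ r, ENNReal.ofReal (c * u r ^ 2 + (α / r) ^ 2 * a r ^ 2) ∂rho ≤
      ∫⁻ r, ENNReal.ofReal (a r ^ 2) ∂rho := by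
  have huc : Continuous u := continuous_iff_continuousAt.2 fun r => (hu r).continuousAt
  set b : ℝ := max α β + 1 with hb
  have hab : α ≤ b := by have := le_max_left α β; linarith
  have hβb : β < b := by have := le_max_right α β; linarith
  rw [lintegral_rho (by fun_prop), lintegral_rho (by fun_prop)]
  set f1 : ℝ → ℝ := fun r => r * (c * u r ^ 2 + (α / r) ^ 2 * a r ^ 2) with hf1
  set f2 : ℝ → ℝ := fun r => r * a r ^ 2 with hf2
  have hf1c : ContinuousOn f1 (Icc α b) := by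
    refine continuousOn_id.mul (ContinuousOn.add (by fun_prop) (ContinuousOn.mul ?_ (by fun_prop)))
    refine ContinuousOn.pow (continuousOn_const.div continuousOn_id fun r hr => ?_) 2
    exact (lt_of_lt_of_le hα hr.1).ne'
  have hf2c : Continuous f2 := by fun_prop
  have e1 : ∫⁻ r in Ioi (0 : ℝ), ENNReal.ofReal r *
      ENNReal.ofReal (c * u r ^ 2 + (α / r) ^ 2 * a r ^ 2) ≤
      ∫⁻ r in Icc α b, ENNReal.ofReal (f1 r) := by
    rw [← lintegral_indicator measurableSet_Ioi, ← lintegral_indicator measurableSet_Icc]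
    refine lintegral_mono fun r => ?_
    by_cases hr : r ∈ Ioi (0 : ℝ)
    · have hr' : 0 < r := hr
      rw [indicator_of_mem hr]
      by_cases hr2 : r ∈ Icc α b
      · rw [indicator_of_mem hr2, ← ENNReal.ofReal_mul hr'.le]
      · have : r < α ∨ β < r := by
          by_contra hh
          push Not at hh
          exact hr2 ⟨hh.1, by linarith [hh.2]⟩
        obtain ⟨h1, h2⟩ := h0 r hr' this
        simp [h1, h2]
    · simp [indicator_of_notMem hr]
  have e2 : ∫⁻ r in Icc α b, ENNReal.ofReal (f2 r) ≤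
      ∫⁻ r in Ioi (0 : ℝ), ENNReal.ofReal r * ENNReal.ofReal (a r ^ 2) := by
    refine le_trans (le_of_eq ?_) (lintegral_mono_set (s := Icc α b)
      fun r hr => lt_of_lt_of_le hα hr.1)
    refine setLIntegral_congr_fun measurableSet_Icc fun r hr => ?_
    simp only [hf2]
    rw [ENNReal.ofReal_mul (hα.le.trans hr.1)]
  refine e1.trans (le_trans ?_ e2)
  have i1 : IntegrableOn f1 (Icc α b) := hf1c.integrableOn_Icc
  have i2 : IntegrableOn f2 (Icc α b) := hf2c.continuousOn.integrableOn_Icc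
  rw [← ofReal_integral_eq_lintegral_ofReal i1, ← ofReal_integral_eq_lintegral_ofReal i2]
  · apply ENNReal.ofReal_le_ofReal
    set h' : ℝ → ℝ := fun r => 2 * r * u r ^ 2 + (r ^ 2 - α ^ 2) * (2 * u r * a r) with hh'
    have hd : ∀ r, HasDerivAt (fun r => (r ^ 2 - α ^ 2) * u r ^ 2) (h' r) r := by
      intro r
      have h1 := ((hasDerivAt_pow 2 r).sub_const (α ^ 2)).mul ((hu r).pow 2)
      refine h1.congr_deriv ?_
      simp [hh']
    have hh'c : Continuous h' := by fun_prop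
    have hftc : ∫ r in α..b, h' r = 0 := by
      rw [intervalIntegral.integral_eq_sub_of_hasDerivAt (fun r _ => hd r)
        (hh'c.intervalIntegrable _ _)]
      simp [(h0 b (lt_of_lt_of_le hα hab) (Or.inr hβb)).1]
    rw [intervalIntegral.integral_of_le hab, ← integral_Icc_eq_integral_Ioc] at hftc
    have i3 : IntegrableOn h' (Icc α b) := hh'c.continuousOn.integrableOn_Icc
    calc ∫ r in Icc α b, f1 r ≤ ∫ r in Icc α b, (f2 r + c * h' r) := by
          refine setIntegral_mono_on i1 (i2.add (i3.const_mul c)) measurableSet_Icc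
            fun r hr => ?_
          have hr0 : 0 < r := lt_of_lt_of_le hα hr.1
          simp only [hf1, hf2, hh']
          have hD : 0 ≤ r ^ 2 - α ^ 2 := by nlinarith [hr.1]
          by_cases hrβ : β < r
          · obtain ⟨h1, h2⟩ := h0 r hr0 (Or.inr hrβ)
            simp [h1, h2]
          · push Not at hrβ
            have hcD : c * (r ^ 2 - α ^ 2) ≤ 1 := by
              refine le_trans ?_ hcb
              gcongr
            have key : r * a r ^ 2 + c * (2 * r * u r ^ 2 + (r ^ 2 - α ^ 2) * (2 * u r * a r)) -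
                r * (c * u r ^ 2 + (α / r) ^ 2 * a r ^ 2) =
                (r ^ 2 - α ^ 2) / r * (a r + c * r * u r) ^ 2 +
                  c * r * u r ^ 2 * (1 - c * (r ^ 2 - α ^ 2)) := by
              field_simp
              ring
            have h1 : 0 ≤ (r ^ 2 - α ^ 2) / r * (a r + c * r * u r) ^ 2 := by positivity
            have h2 : 0 ≤ c * r * u r ^ 2 * (1 - c * (r ^ 2 - α ^ 2)) := by
              have : 0 ≤ 1 - c * (r ^ 2 - α ^ 2) := by linarith
              positivity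
            linarith
      _ = ∫ r in Icc α b, f2 r := by
          rw [integral_add i2 (i3.const_mul c), integral_const_mul, hftc]
          simp
  · refine (ae_restrict_iff' measurableSet_Icc).2 (Eventually.of_forall fun r hr => ?_)
    have hr0 : 0 < r := lt_of_lt_of_le hα hr.1
    simp only [hf2]
    positivity
  · refine (ae_restrict_iff' measurableSet_Icc).2 (Eventually.of_forall fun r hr => ?_)
    have hr0 : 0 < r := lt_of_lt_of_le hα hr.1
    simp only [hf1]
    positivity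

variable {Z : Type*} [NormedAddCommGroup Z] [InnerProductSpace ℝ Z] [FiniteDimensional ℝ Z]
  [MeasurableSpace Z] [BorelSpace Z]

variable (Z) in
/-- `s` is an admissible constant in the flat Sobolev inequality on `ℝ × Z`. -/
def Good (p : ℝ) (s : ℝ≥0∞) : Prop :=
  ∀ w : WithLp 2 (ℝ × Z) → ℝ, ContDiff ℝ ∞ w → HasCompactSupport w →
    s * (∫⁻ x, ‖w x‖ₑ ^ p) ^ (2 / p) ≤ ∫⁻ x, ‖fderiv ℝ w x‖ₑ ^ 2

theorem ae_sig_pos : ∀ᵐ q ∂(sig Z), 0 < q.1 := by
  unfold sig
  have h1 : ∀ᵐ r ∂rho, 0 < r := by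
    unfold rho
    refine (withDensity_absolutelyContinuous _ _).ae_le ?_
    exact (ae_restrict_iff' measurableSet_Ioi).2 (Eventually.of_forall fun r hr => hr)
  exact (Measure.quasiMeasurePreserving_fst (μ := rho) (ν := (volume : Measure Z))).ae h1

omit [MeasurableSpace Z] [BorelSpace Z] in
theorem continuous_gradient {φ : WithLp 2 (Pl × Z) → ℝ} (hφ : ContDiff ℝ ∞ φ) :
    Continuous (gradient φ) := by
  unfold gradient
  exact (InnerProductSpace.toDual ℝ _).symm.continuous.comp (hφ.continuous_fderiv (by simp))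

omit [MeasurableSpace Z] [BorelSpace Z] in
theorem gradient_eq_zero_of_notMem {φ : WithLp 2 (Pl × Z) → ℝ} {x : WithLp 2 (Pl × Z)}
    (hx : x ∉ tsupport φ) : gradient φ x = 0 := by
  unfold gradient
  rw [fderiv_of_notMem_tsupport ℝ hx, map_zero]

/-- the flattened slice -/
noncomputable def flat (α θ : ℝ) (φ : WithLp 2 (Pl × Z) → ℝ) (x : WithLp 2 (ℝ × Z)) : ℝ :=
  φ (WithLp.toLp 2 (√(2 * α * x.fst) • ee θ, x.snd))

section
variable {α β θ : ℝ} {φ : WithLp 2 (Pl × Z) → ℝ}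

omit [FiniteDimensional ℝ Z] [MeasurableSpace Z] [BorelSpace Z] [InnerProductSpace ℝ Z] in
theorem flat_TT (hα : 0 < α) {q : ℝ × Z} (hq : 0 < q.1) :
    flat α θ φ (TT α q) = φ (Psi (θ, q)) := by
  simp only [flat, TT, Psi, WithLp.toLp_fst, WithLp.toLp_snd]
  have : 2 * α * (q.1 ^ 2 / (2 * α)) = q.1 ^ 2 := by field_simp
  rw [this, Real.sqrt_sq hq.le]

omit [FiniteDimensional ℝ Z] [MeasurableSpace Z] [BorelSpace Z] [InnerProductSpace ℝ Z] in
theorem flat_zero (hα : 0 < α) (hs : ∀ x ∈ tsupport φ, α ≤ ‖x.fst‖ ∧ ‖x.fst‖ ≤ β)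
    {x : WithLp 2 (ℝ × Z)} (hx : x.fst < α / 2) : flat α θ φ x = 0 := by
  unfold flat
  apply image_eq_zero_of_notMem_tsupport (f := φ)
  intro h
  have h1 := (hs _ h).1
  simp only [WithLp.toLp_fst, norm_smul, norm_ee, mul_one, Real.norm_eq_abs,
    abs_of_nonneg (Real.sqrt_nonneg _)] at h1
  have h2 : √(2 * α * x.fst) < α := by
    rw [Real.sqrt_lt' hα]
    nlinarith
  linarith

omit [FiniteDimensional ℝ Z] [MeasurableSpace Z] [BorelSpace Z] [InnerProductSpace ℝ Z] in
theorem flat_eventually (hα : 0 < α) (hs : ∀ x ∈ tsupport φ, α ≤ ‖x.fst‖ ∧ ‖x.fst‖ ≤ β)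
    {x : WithLp 2 (ℝ × Z)} (hx : x.fst < α / 2) : flat α θ φ =ᶠ[𝓝 x] fun _ => 0 := by
  have : IsOpen {y : WithLp 2 (ℝ × Z) | y.fst < α / 2} :=
    isOpen_lt (by fun_prop) continuous_const
  filter_upwards [this.mem_nhds hx] with y hy
  exact flat_zero hα hs hy

omit [FiniteDimensional ℝ Z] [MeasurableSpace Z] [BorelSpace Z] in
theorem flat_smooth (hα : 0 < α) (hφ : ContDiff ℝ ∞ φ)
    (hs : ∀ x ∈ tsupport φ, α ≤ ‖x.fst‖ ∧ ‖x.fst‖ ≤ β) : ContDiff ℝ ∞ (flat α θ φ) := by
  rw [contDiff_iff_contDiffAt]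
  intro x
  by_cases hx : x.fst < α / 2
  · exact contDiffAt_const.congr_of_eventuallyEq (flat_eventually hα hs hx)
  · push Not at hx
    have hx0 : 0 < x.fst := by linarith
    unfold flat
    refine hφ.contDiffAt.comp x ?_
    have hf : ContDiff ℝ ∞ (fun y : WithLp 2 (ℝ × Z) => y.fst) :=
      (WithLp.fstL 2 ℝ ℝ Z).contDiff
    have hsn : ContDiff ℝ ∞ (fun y : WithLp 2 (ℝ × Z) => y.snd) :=
      (WithLp.sndL 2 ℝ ℝ Z).contDiff
    have h1 : ContDiffAt ℝ ∞ (fun y : WithLp 2 (ℝ × Z) => √(2 * α * y.fst)) x :=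
      ContDiffAt.sqrt (contDiff_const.mul hf).contDiffAt (by positivity)
    have h2 : ContDiffAt ℝ ∞
        (fun y : WithLp 2 (ℝ × Z) => (√(2 * α * y.fst) • ee θ, y.snd)) x :=
      (h1.smul contDiffAt_const).prodMk hsn.contDiffAt
    exact (WithLp.prodContinuousLinearEquiv 2 ℝ Pl Z).symm.contDiff.contDiffAt.comp x h2

omit [FiniteDimensional ℝ Z] [MeasurableSpace Z] [BorelSpace Z] [InnerProductSpace ℝ Z] in
theorem flat_compact (hα : 0 < α) (hc : HasCompactSupport φ)
    (hs : ∀ x ∈ tsupport φ, α ≤ ‖x.fst‖ ∧ ‖x.fst‖ ≤ β) : HasCompactSupport (flat α θ φ) := by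
  have hK : IsCompact ((fun x : WithLp 2 (Pl × Z) =>
      (WithLp.toLp 2 (‖x.fst‖ ^ 2 / (2 * α), x.snd) : WithLp 2 (ℝ × Z))) '' tsupport φ) :=
    hc.isCompact.image (by fun_prop)
  refine HasCompactSupport.of_support_subset_isCompact hK fun x hx => ?_
  have hx2 : ¬ x.fst < α / 2 := fun h => hx (flat_zero hα hs h)
  push Not at hx2
  refine ⟨_, subset_tsupport _ hx, ?_⟩
  simp only [WithLp.toLp_fst, WithLp.toLp_snd, norm_smul, norm_ee, mul_one, Real.norm_eq_abs,
    sq_abs]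
  rw [Real.sq_sqrt (by nlinarith)]
  have : 2 * α * x.fst / (2 * α) = x.fst := by field_simp
  rw [this]
  rfl

omit [MeasurableSpace Z] [BorelSpace Z] in
theorem norm_fderiv_flat (hα : 0 < α) (hφ : ContDiff ℝ ∞ φ) {q : ℝ × Z} (hq : 0 < q.1) :
    ‖fderiv ℝ (flat α θ φ) (TT α q)‖ ^ 2 =
      (α / q.1) ^ 2 * ⟪(gradient φ (Psi (θ, q))).fst, ee θ⟫_ℝ ^ 2 +
        ‖(gradient φ (Psi (θ, q))).snd‖ ^ 2 := by
  set g := gradient φ (Psi (θ, q)) with hg
  set G : WithLp 2 (ℝ × Z) := WithLp.toLp 2 (α / q.1 * ⟪g.fst, ee θ⟫_ℝ, g.snd) with hG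
  have hsq : √(2 * α * (TT α q).fst) = q.1 := by
    simp only [TT, WithLp.toLp_fst]
    have : 2 * α * (q.1 ^ 2 / (2 * α)) = q.1 ^ 2 := by field_simp
    rw [this, Real.sqrt_sq hq.le]
  have hpos : 2 * α * (TT α q).fst ≠ 0 := by
    simp only [TT, WithLp.toLp_fst]
    positivity
  have hf : HasFDerivAt (fun y : WithLp 2 (ℝ × Z) => y.fst) (WithLp.fstL 2 ℝ ℝ Z) (TT α q) :=
    (WithLp.fstL 2 ℝ ℝ Z).hasFDerivAt
  have hsn : HasFDerivAt (fun y : WithLp 2 (ℝ × Z) => y.snd) (WithLp.sndL 2 ℝ ℝ Z) (TT α q) :=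
    (WithLp.sndL 2 ℝ ℝ Z).hasFDerivAt
  have h1 := ((hf.const_mul (2 * α)).sqrt hpos).smul_const (ee θ)
  have h2 := (WithLp.prodContinuousLinearEquiv 2 ℝ Pl Z).symm.hasFDerivAt.comp (TT α q)
    (h1.prodMk hsn)
  have hpt : WithLp.toLp 2 (√(2 * α * (TT α q).fst) • ee θ, (TT α q).snd) = Psi (θ, q) := by
    rw [hsq]; rfl
  have h3 : HasFDerivAt φ (InnerProductSpace.toDual ℝ _ g)
      (WithLp.toLp 2 (√(2 * α * (TT α q).fst) • ee θ, (TT α q).snd)) := by
    rw [hpt]
    exact ((hφ.differentiable (by simp)) _).hasGradientAt.hasFDerivAt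
  have h4 := h3.comp (TT α q) h2
  have h5 : fderiv ℝ (flat α θ φ) (TT α q) = innerSL ℝ G := by
    refine h4.fderiv.trans ?_
    ext1 h
    simp only [hsq, ContinuousLinearMap.comp_apply, InnerProductSpace.toDual_apply_apply,
      innerSL_apply_apply, hG, WithLp.prod_inner_apply]
    simp [inner_smul_right]
    field_simp
  rw [h5, innerSL_apply_norm, WithLp.prod_norm_sq_eq_of_L2]
  simp only [hG, WithLp.toLp_fst, WithLp.toLp_snd, Real.norm_eq_abs, sq_abs, mul_pow]

theorem slice {p c : ℝ} {s : ℝ≥0∞} (hp : 0 < p) (hα : 0 < α) (hc : 0 ≤ c)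
    (hcb : c * (β ^ 2 - α ^ 2) ≤ 1) (hg : Good Z p s) (hφ : ContDiff ℝ ∞ φ)
    (hcs : HasCompactSupport φ) (hs : ∀ x ∈ tsupport φ, α ≤ ‖x.fst‖ ∧ ‖x.fst‖ ≤ β) :
    s * ENNReal.ofReal α *
        ((∫⁻ q, ‖φ (Psi (θ, q))‖ₑ ^ p ∂(sig Z)) / ENNReal.ofReal α) ^ (2 / p) +
      ENNReal.ofReal c * ∫⁻ q, ‖φ (Psi (θ, q))‖ₑ ^ 2 ∂(sig Z) ≤
      ∫⁻ q, ‖gradient φ (Psi (θ, q))‖ₑ ^ 2 ∂(sig Z) := by
  have hw := flat_smooth (θ := θ) hα hφ hs
  have hwc := flat_compact (θ := θ) hα hcs hs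
  have hG := hg _ hw hwc
  have hα' : ENNReal.ofReal α ≠ 0 := by simpa using hα
  have hPc : Continuous fun q : ℝ × Z => Psi (θ, q) := continuous_Psi.comp (by fun_prop)
  have hgc := continuous_gradient hφ
  have hφc := hφ.continuous
  have e1 : ∫⁻ q, ‖φ (Psi (θ, q))‖ₑ ^ p ∂(sig Z) =
      ENNReal.ofReal α * ∫⁻ x, ‖flat α θ φ x‖ₑ ^ p := by
    rw [← lintegral_TT hα (hw.continuous.measurable.enorm.pow_const p)]
    · refine lintegral_congr_ae ?_
      filter_upwards [ae_sig_pos] with q hq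
      rw [flat_TT hα hq]
    · intro x hx
      rw [flat_zero hα hs (by linarith)]
      simp [hp]
  have e2 : ENNReal.ofReal α * ∫⁻ x, ‖fderiv ℝ (flat α θ φ) x‖ₑ ^ 2 =
      ∫⁻ q, ENNReal.ofReal ((α / q.1) ^ 2 * ⟪(gradient φ (Psi (θ, q))).fst, ee θ⟫_ℝ ^ 2 +
        ‖(gradient φ (Psi (θ, q))).snd‖ ^ 2) ∂(sig Z) := by
    rw [← lintegral_TT hα
      ((hw.continuous_fderiv (by simp)).enorm.measurable.pow_const 2)]
    · refine lintegral_congr_ae ?_
      filter_upwards [ae_sig_pos] with q hq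
      rw [← norm_fderiv_flat hα hφ hq]
      exact enorm_sq _
    · intro x hx
      rw [(flat_eventually hα hs (by linarith)).fderiv_eq]
      refine (enorm_sq _).trans ?_
      simp
  rw [e1, mul_comm (ENNReal.ofReal α) (∫⁻ x, ‖flat α θ φ x‖ₑ ^ p),
    ENNReal.mul_div_cancel_right hα' ENNReal.ofReal_ne_top]
  set A : ℝ × Z → ℝ := fun q => ⟪(gradient φ (Psi (θ, q))).fst, ee θ⟫_ℝ with hA
  set B : ℝ × Z → ℝ := fun q => ‖(gradient φ (Psi (θ, q))).snd‖ with hB
  have hAc : Continuous A := by simp only [hA]; fun_prop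
  have hBc : Continuous B := by simp only [hB]; fun_prop
  have hU : Continuous fun q : ℝ × Z => φ (Psi (θ, q)) := hφc.comp hPc
  have hAm := hAc.measurable
  have hBm := hBc.measurable
  have hUm := hU.measurable
  calc s * ENNReal.ofReal α * (∫⁻ x, ‖flat α θ φ x‖ₑ ^ p) ^ (2 / p) +
        ENNReal.ofReal c * ∫⁻ q, ‖φ (Psi (θ, q))‖ₑ ^ 2 ∂(sig Z)
      ≤ ENNReal.ofReal α * (∫⁻ x, ‖fderiv ℝ (flat α θ φ) x‖ₑ ^ 2) +
        ENNReal.ofReal c * ∫⁻ q, ‖φ (Psi (θ, q))‖ₑ ^ 2 ∂(sig Z) := by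
        rw [mul_comm s, mul_assoc]
        gcongr
    _ = ∫⁻ q, (ENNReal.ofReal (c * φ (Psi (θ, q)) ^ 2 + (α / q.1) ^ 2 * A q ^ 2) +
          ENNReal.ofReal (B q ^ 2)) ∂(sig Z) := by
        rw [e2, ← lintegral_const_mul' _ _ ENNReal.ofReal_ne_top, ← lintegral_add_right]
        · refine lintegral_congr fun q => ?_
          rw [enorm_sq,
            ← ENNReal.ofReal_mul hc, ← ENNReal.ofReal_add (by positivity) (by positivity),
            ← ENNReal.ofReal_add (by positivity) (by positivity)]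
          congr 1
          simp only [hA, hB, Real.norm_eq_abs, sq_abs]
          ring
        · exact (hUm.enorm.pow_const 2).const_mul _
    _ ≤ ∫⁻ q, (ENNReal.ofReal (A q ^ 2) + ENNReal.ofReal (B q ^ 2)) ∂(sig Z) := by
        rw [lintegral_add_right _ (by fun_prop), lintegral_add_right _ (by fun_prop)]
        gcongr ?_ + _
        rw [lintegral_sig (ENNReal.measurable_ofReal.fun_comp
          (((hUm.pow_const 2).const_mul c).fun_add (by fun_prop))), lintegral_sig (by fun_prop)]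
        refine lintegral_mono fun z => ?_
        refine oneD (β := β) (u := fun r => φ (Psi (θ, (r, z)))) (a := fun r => A (r, z))
          hα hc hcb (fun r => ?_) (by fun_prop) (fun r hr h => ?_)
        · have h1 : HasDerivAt (fun r : ℝ => (r • ee θ, z)) ((ee θ, 0) : Pl × Z) r := by
            have := ((hasDerivAt_id r).smul_const (ee θ)).prodMk (hasDerivAt_const r z)
            simpa using this
          have h2 := (WithLp.prodContinuousLinearEquiv 2 ℝ Pl Z).symm.hasFDerivAt.comp_hasDerivAt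
            r h1
          have h3 : HasFDerivAt φ (InnerProductSpace.toDual ℝ _ (gradient φ (Psi (θ, (r, z)))))
              (Psi (θ, (r, z))) := ((hφ.differentiable (by simp)) _).hasGradientAt.hasFDerivAt
          have h4 := h3.comp_hasDerivAt r h2
          refine h4.congr_deriv ?_
          simp only [hA, InnerProductSpace.toDual_apply_apply, WithLp.prod_inner_apply]
          simp
        · have hn : Psi (θ, (r, z)) ∉ tsupport φ := by
            intro hh
            have := hs _ hh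
            simp only [Psi, WithLp.toLp_fst, norm_smul, norm_ee, mul_one, Real.norm_eq_abs,
              abs_of_pos hr] at this
            rcases h with h | h <;> linarith [this.1, this.2]
          refine ⟨image_eq_zero_of_notMem_tsupport hn, ?_⟩
          simp [hA, gradient_eq_zero_of_notMem hn]
    _ ≤ ∫⁻ q, ‖gradient φ (Psi (θ, q))‖ₑ ^ 2 ∂(sig Z) := by
        refine lintegral_mono fun q => ?_
        simp only
        rw [enorm_sq,
          ← ENNReal.ofReal_add (by positivity) (by positivity), WithLp.prod_norm_sq_eq_of_L2]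
        apply ENNReal.ofReal_le_ofReal
        have h1 : |A q| ≤ ‖(gradient φ (Psi (θ, q))).fst‖ := by
          have := abs_real_inner_le_norm (gradient φ (Psi (θ, q))).fst (ee θ)
          simpa [norm_ee] using this
        have h2 : A q ^ 2 ≤ ‖(gradient φ (Psi (θ, q))).fst‖ ^ 2 := by
          rw [← sq_abs]; gcongr
        simp only [hB]
        linarith

end

end Pool.Agent.Lib.MP_ce3dc4_an
end

-- part Pool.Agent.Lib.MP_ce3dc4_an.Key
section

/-!
The key inequality on the invariant Sobolev space.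
-/

open MeasureTheory Filter Topology Set
open scoped ContDiff InnerProductSpace ENNReal Real

set_option linter.unusedSectionVars false

namespace Pool.Agent.Lib.MP_ce3dc4_an

theorem integral_sq_L2 {X V : Type*} [MeasurableSpace X] {μ : Measure X} [NormedAddCommGroup V]
    [InnerProductSpace ℝ V] (f : Lp V 2 μ) : ∫ x, ‖f x‖ ^ 2 ∂μ = ‖f‖ ^ 2 := by
  rw [← real_inner_self_eq_norm_sq, L2.inner_def]
  simp

theorem lintegral_sq_L2 {X V : Type*} [MeasurableSpace X] {μ : Measure X} [NormedAddCommGroup V]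
    [InnerProductSpace ℝ V] (f : Lp V 2 μ) :
    ∫⁻ x, ‖f x‖ₑ ^ 2 ∂μ = ENNReal.ofReal (‖f‖ ^ 2) := by
  rw [← integral_sq_L2, ofReal_integral_eq_lintegral_ofReal]
  · exact lintegral_congr fun x => enorm_sq _
  · exact (memLp_two_iff_integrable_sq_norm (Lp.aestronglyMeasurable f)).1 (Lp.memLp f)
  · exact Eventually.of_forall fun x => by positivity

theorem ae_const_of_shift {n : ℝ → ℝ≥0∞} (hn : Measurable n)
    (h : ∀ s : ℝ, ∀ᵐ θ ∂tau, n (θ + s) = n θ) : ∃ n0, ∀ᵐ θ ∂tau, n θ = n0 := by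
  have h1 : ∀ᵐ s ∂(volume : Measure ℝ), ∀ᵐ θ ∂tau, n (θ + s) = n θ := Eventually.of_forall h
  have hms : MeasurableSet {x : ℝ × ℝ | n (x.2 + x.1) = n x.2} :=
    measurableSet_eq_fun (by fun_prop) (by fun_prop)
  rw [Measure.ae_ae_comm (p := fun s θ => n (θ + s) = n θ) hms] at h1
  have hne : tau ≠ 0 := by
    intro h0
    have := tau_univ
    rw [h0] at this
    simp only [Measure.coe_zero, Pi.zero_apply] at this
    have h2 := (ENNReal.ofReal_pos.2 Real.two_pi_pos).ne
    exact h2 this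
  have : (ae tau).NeBot := ae_neBot.2 hne
  obtain ⟨θ0, h2⟩ := h1.exists
  refine ⟨n θ0, ?_⟩
  have h3 := (measurePreserving_add_left (volume : Measure ℝ) (-θ0)).quasiMeasurePreserving.ae h2
  have h4 : ∀ᵐ x ∂(volume : Measure ℝ), n x = n θ0 := by
    filter_upwards [h3] with x hx
    simpa using hx
  exact ae_restrict_of_ae h4

variable {N : ℕ}

theorem key {Θ : Set (ℝ × Zs N)} {α β p c : ℝ} {s : ℝ≥0∞} (hp : 0 < p) (hα : 0 < α)
    (hc : 0 ≤ c) (hcb : c * (β ^ 2 - α ^ 2) ≤ 1) (hst : s ≠ ⊤) (hg : Good (Zs N) p s)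
    (hΘ : ∀ x ∈ Θ, α ≤ x.1 ∧ x.1 ≤ β) {u : Pr N} (hu : u ∈ HH Θ) :
    c * ‖u.1‖ ^ 2 ≤ ‖u.2‖ ^ 2 ∧
    s * ENNReal.ofReal (2 * π * α) *
        ((∫⁻ x, ‖u.1 x‖ₑ ^ p) / ENNReal.ofReal (2 * π * α)) ^ (2 / p) ≤
      ENNReal.ofReal (‖u.2‖ ^ 2 - c * ‖u.1‖ ^ 2) := by
  obtain ⟨hcl, hinv⟩ := hu
  obtain ⟨v, hv, hlim⟩ := mem_closure_iff_seq_limit.1 hcl
  choose φ hφ hφc hφs hv1 hv2 using hv
  have hα' : ENNReal.ofReal α ≠ 0 := by simpa using hα
  set h : ℝ≥0∞ → ℝ≥0∞ := fun t => s * ENNReal.ofReal α * (t / ENNReal.ofReal α) ^ (2 / p)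
    with hh
  have hmono : Monotone h := by
    intro a b hab
    simp only [hh]
    gcongr
  have hcont : Continuous h := by
    refine (ENNReal.continuous_const_mul (ENNReal.mul_ne_top hst ENNReal.ofReal_ne_top)).comp ?_
    exact ENNReal.continuous_rpow_const.comp (ENNReal.continuous_div_const _ hα')
  set nn : (Sp N → ℝ) → ℝ → ℝ≥0∞ := fun f θ => ∫⁻ q, ‖f (Psi (θ, q))‖ₑ ^ p ∂(sig (Zs N))
    with hnn
  have hPm : Measurable (Psi : ℝ × (ℝ × Zs N) → Sp N) := continuous_Psi.measurable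
  have hnm : ∀ f : Sp N → ℝ, Measurable f → Measurable (nn f) := fun f hf =>
    ((hf.fun_comp hPm).enorm.pow_const p).lintegral_prod_right'
  have hum : Measurable (u.1 : Sp N → ℝ) := (Lp.stronglyMeasurable u.1).measurable
  -- the inequality for each test function
  have step : ∀ j, c * ‖(v j).1‖ ^ 2 ≤ ‖(v j).2‖ ^ 2 ∧
      ∫⁻ θ, h (nn (φ j) θ) ∂tau ≤ ENNReal.ofReal (‖(v j).2‖ ^ 2 - c * ‖(v j).1‖ ^ 2) := by
    intro j
    have hs : ∀ x ∈ tsupport (φ j), α ≤ ‖x.fst‖ ∧ ‖x.fst‖ ≤ β := fun x hx => hΘ _ (hφs j hx)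
    have hφm := (hφ j).continuous.measurable
    have hgm := (continuous_gradient (hφ j)).measurable
    have e1 : ENNReal.ofReal (‖(v j).1‖ ^ 2) =
        ∫⁻ θ, ∫⁻ q, ‖φ j (Psi (θ, q))‖ₑ ^ 2 ∂(sig (Zs N)) ∂tau := by
      rw [← lintegral_sq_L2, ← lintegral_Psi (f := fun x => ‖φ j x‖ₑ ^ 2)
        (hφm.enorm.pow_const 2)]
      refine lintegral_congr_ae ?_
      filter_upwards [hv1 j] with x hx
      rw [hx]
    have e2 : ENNReal.ofReal (‖(v j).2‖ ^ 2) =
        ∫⁻ θ, ∫⁻ q, ‖gradient (φ j) (Psi (θ, q))‖ₑ ^ 2 ∂(sig (Zs N)) ∂tau := by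
      rw [← lintegral_sq_L2, ← lintegral_Psi (f := fun x => ‖gradient (φ j) x‖ₑ ^ 2)
        (hgm.enorm.pow_const 2)]
      refine lintegral_congr_ae ?_
      filter_upwards [hv2 j] with x hx
      rw [hx]
    have e3 : ∫⁻ θ, h (nn (φ j) θ) ∂tau + ENNReal.ofReal (c * ‖(v j).1‖ ^ 2) ≤
        ENNReal.ofReal (‖(v j).2‖ ^ 2) := by
      rw [ENNReal.ofReal_mul hc, e1, e2, ← lintegral_const_mul' _ _ ENNReal.ofReal_ne_top,
        ← lintegral_add_left (hcont.measurable.fun_comp (hnm _ hφm))]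
      exact lintegral_mono fun θ => slice hp hα hc hcb hg (hφ j) (hφc j) hs
    refine ⟨?_, ?_⟩
    · have := le_trans le_add_self e3
      rwa [ENNReal.ofReal_le_ofReal_iff (by positivity)] at this
    · rw [ENNReal.ofReal_sub _ (by positivity)]
      exact ENNReal.le_sub_of_add_le_right ENNReal.ofReal_ne_top e3
  have hl1 : Tendsto (fun j => (v j).1) atTop (𝓝 u.1) := (continuous_fst.tendsto u).comp hlim
  have hl2 : Tendsto (fun j => (v j).2) atTop (𝓝 u.2) := (continuous_snd.tendsto u).comp hlim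
  have hla : Tendsto (fun j => c * ‖(v j).1‖ ^ 2) atTop (𝓝 (c * ‖u.1‖ ^ 2)) :=
    (hl1.norm.pow 2).const_mul c
  have hlb : Tendsto (fun j => ‖(v j).2‖ ^ 2) atTop (𝓝 (‖u.2‖ ^ 2)) := hl2.norm.pow 2
  refine ⟨le_of_tendsto_of_tendsto' hla hlb fun j => (step j).1, ?_⟩
  obtain ⟨ns, hns, hae⟩ := (tendstoInMeasure_of_tendsto_Lp hl1).exists_seq_tendsto_ae
  have hae2 : ∀ᵐ x ∂(volume : Measure (Sp N)),
      Tendsto (fun i => φ (ns i) x) atTop (𝓝 (u.1 x)) := by
    filter_upwards [hae, ae_all_iff.2 hv1] with x hx hx2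
    simpa only [hx2] using hx
  have hae3 := Measure.ae_ae_of_ae_prod ((mp_Psi (Z := Zs N)).quasiMeasurePreserving.ae hae2)
  have fat : ∫⁻ θ, h (nn u.1 θ) ∂tau ≤ ENNReal.ofReal (‖u.2‖ ^ 2 - c * ‖u.1‖ ^ 2) := by
    calc ∫⁻ θ, h (nn u.1 θ) ∂tau
        ≤ ∫⁻ θ, liminf (fun i => h (nn (φ (ns i)) θ)) atTop ∂tau := by
          refine lintegral_mono_ae ?_
          filter_upwards [hae3] with θ hθ
          have h1 : nn u.1 θ ≤ liminf (fun i => nn (φ (ns i)) θ) atTop := by
            refine le_trans (le_of_eq ?_) (lintegral_liminf_le fun i =>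
              (((hφ (ns i)).continuous.measurable.fun_comp
                (hPm.fun_comp (by fun_prop))).enorm.pow_const p))
            refine lintegral_congr_ae ?_
            filter_upwards [hθ] with q hq
            exact ((ENNReal.continuous_rpow_const.tendsto _).comp hq.enorm).liminf_eq.symm
          refine (hmono h1).trans (le_of_eq ?_)
          exact hmono.map_liminf_of_continuousAt _ hcont.continuousAt
      _ ≤ liminf (fun i => ∫⁻ θ, h (nn (φ (ns i)) θ) ∂tau) atTop :=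
          lintegral_liminf_le fun i =>
            hcont.measurable.fun_comp (hnm _ (hφ (ns i)).continuous.measurable)
      _ ≤ liminf (fun i => ENNReal.ofReal
            (‖(v (ns i)).2‖ ^ 2 - c * ‖(v (ns i)).1‖ ^ 2)) atTop :=
          liminf_le_liminf (Eventually.of_forall fun i => (step (ns i)).2)
      _ = ENNReal.ofReal (‖u.2‖ ^ 2 - c * ‖u.1‖ ^ 2) :=
          (ENNReal.tendsto_ofReal ((hlb.sub hla).comp hns.tendsto_atTop)).liminf_eq
  obtain ⟨n0, hn0⟩ := ae_const_of_shift (hnm _ hum) (fun s => by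
    have h1 := Measure.ae_ae_of_ae_prod
      ((mp_Psi (Z := Zs N)).quasiMeasurePreserving.ae (hinv (rot s)))
    filter_upwards [h1] with θ hθ
    refine lintegral_congr_ae ?_
    filter_upwards [hθ] with q hq
    rw [← hq]
    simp only [Psi, WithLp.toLp_fst, WithLp.toLp_snd, rot_ee])
  have e4 : ∫⁻ x, ‖u.1 x‖ₑ ^ p = n0 * ENNReal.ofReal (2 * π) := by
    rw [lintegral_Psi (f := fun x => ‖u.1 x‖ₑ ^ p) (hum.enorm.pow_const p), ← tau_univ,
      ← lintegral_const]
    exact lintegral_congr_ae hn0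
  have e5 : ∫⁻ θ, h (nn u.1 θ) ∂tau = h n0 * ENNReal.ofReal (2 * π) := by
    rw [← tau_univ, ← lintegral_const]
    refine lintegral_congr_ae ?_
    filter_upwards [hn0] with θ hθ
    rw [hθ]
  refine le_trans (le_of_eq ?_) fat
  have hpi : ENNReal.ofReal (2 * π) ≠ 0 := (ENNReal.ofReal_pos.2 Real.two_pi_pos).ne'
  rw [e5, e4, ENNReal.ofReal_mul Real.two_pi_pos.le, mul_comm n0,
    ENNReal.mul_div_mul_left _ _ hpi ENNReal.ofReal_ne_top]
  simp only [hh]
  ring

end Pool.Agent.Lib.MP_ce3dc4_an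
end

-- part Pool.Agent.Lib.MP_ce3dc4_an.Bubble
section

/-!
Concentrating test functions.
-/

open MeasureTheory Filter Topology Set
open scoped ContDiff InnerProductSpace ENNReal Real

set_option linter.unusedSectionVars false

namespace Pool.Agent.Lib.MP_ce3dc4_an

theorem lintegral_scale {F : Type*} [NormedAddCommGroup F] [InnerProductSpace ℝ F]
    [FiniteDimensional ℝ F] [MeasurableSpace F] [BorelSpace F] {g : F → ℝ≥0∞}
    (hg : Measurable g) {ε : ℝ} (hε : 0 < ε) (ξ : F) :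
    ∫⁻ x, g (ε⁻¹ • (x - ξ)) = ENNReal.ofReal (ε ^ Module.finrank ℝ F) * ∫⁻ x, g x := by
  rw [lintegral_sub_right_eq_self (fun x => g (ε⁻¹ • x)) ξ,
    ← lintegral_map hg (by fun_prop), Measure.map_addHaar_smul _ (inv_pos.2 hε).ne',
    lintegral_smul_measure, inv_pow, inv_inv, abs_of_pos (by positivity)]
  rfl

variable {N : ℕ}

/-- the map `(y, z) ↦ (|y|, z)` -/
noncomputable def RR (x : Sp N) : WithLp 2 (ℝ × Zs N) := WithLp.toLp 2 (‖x.fst‖, x.snd)

theorem RR_lip : LipschitzWith 1 (RR : Sp N → WithLp 2 (ℝ × Zs N)) := by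
  refine LipschitzWith.of_dist_le_mul fun x y => ?_
  rw [NNReal.coe_one, one_mul, dist_eq_norm, dist_eq_norm]
  refine (pow_le_pow_iff_left₀ (norm_nonneg _) (norm_nonneg _) two_ne_zero).1 ?_
  rw [WithLp.prod_norm_sq_eq_of_L2, WithLp.prod_norm_sq_eq_of_L2]
  have h1 : ‖(RR x - RR y).fst‖ ≤ ‖(x - y).fst‖ := by
    simpa [RR] using abs_norm_sub_norm_le x.fst y.fst
  have h2 : (RR x - RR y).snd = (x - y).snd := by simp [RR]
  rw [h2]
  gcongr

theorem RR_smooth {x : Sp N} (hx : x.fst ≠ 0) : ContDiffAt ℝ ∞ (RR : Sp N → _) x := by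
  have hf : ContDiff ℝ ∞ (fun y : Sp N => y.fst) := (WithLp.fstL 2 ℝ Pl (Zs N)).contDiff
  have hsn : ContDiff ℝ ∞ (fun y : Sp N => y.snd) := (WithLp.sndL 2 ℝ Pl (Zs N)).contDiff
  have h2 : ContDiffAt ℝ ∞ (fun y : Sp N => (‖y.fst‖, y.snd)) x :=
    (hf.contDiffAt.norm ℝ hx).prodMk hsn.contDiffAt
  exact (WithLp.prodContinuousLinearEquiv 2 ℝ ℝ (Zs N)).symm.contDiff.contDiffAt.comp x h2

theorem RR_Psi (θ : ℝ) {q : ℝ × Zs N} (hq : 0 < q.1) :
    RR (Psi (θ, q)) = WithLp.toLp 2 q := by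
  simp [RR, Psi, norm_smul, norm_ee, abs_of_pos hq]

/-- lifting a test function on the half space to an invariant element of `H` -/
theorem lift {Θ : Set (ℝ × Zs N)} {α b p : ℝ} (hp : 0 < p) (hα : 0 < α)
    (hΘ : ∀ x ∈ Θ, α ≤ x.1) {w : WithLp 2 (ℝ × Zs N) → ℝ} (hw : ContDiff ℝ ∞ w)
    (hwc : HasCompactSupport w) (hs : ∀ x ∈ tsupport w, x.ofLp ∈ Θ ∧ x.fst ≤ b) :
    ∃ u ∈ HH Θ, ENNReal.ofReal (2 * π * α) * ∫⁻ x, ‖w x‖ₑ ^ p ≤ ∫⁻ x, ‖u.1 x‖ₑ ^ p ∧
      ENNReal.ofReal (‖u.2‖ ^ 2) ≤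
        ENNReal.ofReal (2 * π) * (ENNReal.ofReal b * ∫⁻ x, ‖fderiv ℝ w x‖ₑ ^ 2) := by
  set v : Sp N → ℝ := fun x => w (RR x) with hv
  have hRc : Continuous (RR : Sp N → _) := RR_lip.continuous
  have hts : tsupport v ⊆ RR ⁻¹' tsupport w :=
    closure_minimal (fun x hx => subset_tsupport _ hx) ((isClosed_tsupport w).preimage hRc)
  have hne : ∀ x ∈ tsupport v, x.fst ≠ 0 := by
    intro x hx h0
    have := hΘ _ (hs _ (hts hx)).1
    simp [RR, h0] at this
    linarith
  have hvs : ContDiff ℝ ∞ v := by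
    rw [contDiff_iff_contDiffAt]
    intro x
    by_cases hx : x ∈ tsupport v
    · exact hw.contDiffAt.comp x (RR_smooth (hne x hx))
    · exact contDiffAt_const.congr_of_eventuallyEq (notMem_tsupport_iff_eventuallyEq.1 hx)
  have hvc : HasCompactSupport v := by
    obtain ⟨R, hR⟩ := hwc.isCompact.isBounded.subset_closedBall 0
    refine Metric.isCompact_of_isClosed_isBounded (isClosed_tsupport v)
      ((Metric.isBounded_closedBall (x := (0 : Sp N)) (r := R)).subset fun x hx => ?_)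
    have h1 := hR (hts hx)
    rw [mem_closedBall_zero_iff] at h1 ⊢
    refine le_trans (le_of_eq ?_) h1
    refine (pow_left_inj₀ (norm_nonneg _) (norm_nonneg _) two_ne_zero).1 ?_
    rw [WithLp.prod_norm_sq_eq_of_L2, WithLp.prod_norm_sq_eq_of_L2]
    simp [RR]
  have hgc := continuous_gradient hvs
  have hgs : HasCompactSupport (gradient v) :=
    hvc.mono' fun x hx => by
      by_contra h
      exact hx (gradient_eq_zero_of_notMem h)
  have m1 : MemLp v 2 volume := hvs.continuous.memLp_of_hasCompactSupport hvc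
  have m2 : MemLp (gradient v) 2 volume := hgc.memLp_of_hasCompactSupport hgs
  have hgb : ∀ x, ‖gradient v x‖ ≤ ‖fderiv ℝ w (RR x)‖ := by
    intro x
    by_cases hx : x ∈ tsupport v
    · have h1 : fderiv ℝ v x = (fderiv ℝ w (RR x)).comp (fderiv ℝ RR x) :=
        fderiv_comp x (hw.differentiable (by simp) _)
          ((RR_smooth (hne x hx)).differentiableAt (by simp))
      have h2 : ‖fderiv ℝ (RR : Sp N → _) x‖ ≤ 1 := norm_fderiv_le_of_lipschitz ℝ RR_lip
      unfold gradient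
      rw [LinearIsometryEquiv.norm_map, h1]
      refine (ContinuousLinearMap.opNorm_comp_le _ _).trans ?_
      exact mul_le_of_le_one_right (norm_nonneg _) h2
    · rw [gradient_eq_zero_of_notMem hx, norm_zero]
      exact norm_nonneg _
  refine ⟨(m1.toLp v, m2.toLp _), ⟨subset_closure ⟨v, hvs, hvc, fun x hx => ?_,
    m1.coeFn_toLp, m2.coeFn_toLp⟩, fun g => ?_⟩, ?_, ?_⟩
  · exact (hs _ (hts hx)).1
  · have hL := (LinearIsometryEquiv.withLpProdCongr 2 g
      (LinearIsometryEquiv.refl ℝ (Zs N))).measurePreserving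
    filter_upwards [hL.quasiMeasurePreserving.ae m1.coeFn_toLp, m1.coeFn_toLp] with x h1 h2
    refine h1.trans (Eq.trans ?_ h2.symm)
    simp only [hv, RR]
    congr 2
    ext
    · simp
    · simp
  · have e1 : ∫⁻ x, ‖(m1.toLp v) x‖ₑ ^ p = ∫⁻ x, ‖v x‖ₑ ^ p := by
      refine lintegral_congr_ae ?_
      filter_upwards [m1.coeFn_toLp] with x hx
      rw [hx]
    rw [e1, lintegral_Psi (f := fun x => ‖v x‖ₑ ^ p)
      (hvs.continuous.measurable.enorm.pow_const p), ENNReal.ofReal_mul Real.two_pi_pos.le,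
      mul_assoc, mul_comm, ← tau_univ, ← lintegral_const]
    refine lintegral_mono fun θ => ?_
    refine (le_lintegral_sig hα (g := fun x => ‖w x‖ₑ ^ p)
      (hw.continuous.measurable.enorm.pow_const p) fun x hx => ?_).trans (le_of_eq ?_)
    · have : x ∉ tsupport w := fun h => by
        have := hΘ _ (hs _ h).1
        exact absurd this (not_le.2 hx)
      simp [image_eq_zero_of_notMem_tsupport this, hp]
    · refine lintegral_congr_ae ?_
      filter_upwards [ae_sig_pos] with q hq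
      simp only [hv, RR_Psi θ hq]
  · have e1 : ENNReal.ofReal (‖m2.toLp _‖ ^ 2) = ∫⁻ x, ‖gradient v x‖ₑ ^ 2 := by
      rw [← lintegral_sq_L2]
      refine lintegral_congr_ae ?_
      filter_upwards [m2.coeFn_toLp] with x hx
      rw [hx]
    refine e1.trans_le ?_
    rw [lintegral_Psi (f := fun x => ‖gradient v x‖ₑ ^ 2)
      (hgc.measurable.enorm.pow_const 2), mul_comm, ← tau_univ, ← lintegral_const]
    refine lintegral_mono fun θ => ?_
    refine le_trans ?_ (lintegral_sig_le (b := b) (g := fun x => ‖fderiv ℝ w x‖ₑ ^ 2)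
      ((hw.continuous_fderiv (by simp)).enorm.measurable.pow_const 2) fun x hx => ?_)
    · refine lintegral_mono_ae ?_
      filter_upwards [ae_sig_pos] with q hq
      rw [enorm_sq, enorm_sq, ← RR_Psi θ hq]
      apply ENNReal.ofReal_le_ofReal
      have := hgb (Psi (θ, q))
      gcongr
    · have : x ∉ tsupport w := fun h => absurd (hs _ h).2 (not_le.2 hx)
      rw [fderiv_of_notMem_tsupport ℝ this]
      refine (enorm_sq _).trans ?_
      simp

theorem finrank_F (hN : 4 ≤ N) : Module.finrank ℝ (WithLp 2 (ℝ × Zs N)) = N - 1 := by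
  rw [(WithLp.linearEquiv 2 ℝ (ℝ × Zs N)).finrank_eq, Module.finrank_prod]
  simp only [Module.finrank_self, finrank_euclideanSpace, Fintype.card_fin]
  omega

/-- concentrated bubbles -/
theorem bubble {Θ : Set (ℝ × Zs N)} {α δ p : ℝ} (hp : 0 < p) (hα : 0 < α) (ho : IsOpen Θ)
    (hΘ : ∀ x ∈ Θ, α ≤ x.1) {ξ : ℝ × Zs N} (hξ : ξ ∈ Θ) (hξδ : ξ.1 < α + δ)
    {w : WithLp 2 (ℝ × Zs N) → ℝ} (hw : ContDiff ℝ ∞ w) (hwc : HasCompactSupport w) :
    ∃ ε : ℝ, 0 < ε ∧ ∃ u ∈ HH Θ,
      ENNReal.ofReal (2 * π * α) *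
        (ENNReal.ofReal (ε ^ Module.finrank ℝ (WithLp 2 (ℝ × Zs N))) * ∫⁻ x, ‖w x‖ₑ ^ p) ≤
        ∫⁻ x, ‖u.1 x‖ₑ ^ p ∧
      ENNReal.ofReal (‖u.2‖ ^ 2) ≤
        ENNReal.ofReal (2 * π) * (ENNReal.ofReal (α + δ) *
          (ENNReal.ofReal (ε⁻¹ ^ 2) *
            (ENNReal.ofReal (ε ^ Module.finrank ℝ (WithLp 2 (ℝ × Zs N))) *
            ∫⁻ x, ‖fderiv ℝ w x‖ₑ ^ 2))) := by
  set ξ' : WithLp 2 (ℝ × Zs N) := WithLp.toLp 2 ξ with hξ'
  have hU : IsOpen {x : WithLp 2 (ℝ × Zs N) | x.ofLp ∈ Θ ∧ x.fst < α + δ} :=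
    (ho.preimage (by fun_prop)).inter
      (isOpen_lt (f := fun x : WithLp 2 (ℝ × Zs N) => x.fst) (by fun_prop) continuous_const)
  obtain ⟨η, hη, hball⟩ := Metric.isOpen_iff.1 hU ξ' ⟨hξ, hξδ⟩
  obtain ⟨R, hR0, hR⟩ := hwc.isCompact.isBounded.subset_ball_lt 0 0
  set ε : ℝ := η / R with hε
  have hε0 : 0 < ε := by positivity
  set A : WithLp 2 (ℝ × Zs N) → WithLp 2 (ℝ × Zs N) := fun x => ε⁻¹ • (x - ξ') with hA
  have hAs : ContDiff ℝ ∞ A := by simp only [hA]; fun_prop
  set W : WithLp 2 (ℝ × Zs N) → ℝ := fun x => w (A x) with hW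
  have hts : tsupport W ⊆ A ⁻¹' tsupport w :=
    closure_minimal (fun x hx => subset_tsupport _ hx)
      ((isClosed_tsupport w).preimage hAs.continuous)
  have hin : ∀ x ∈ tsupport W, x ∈ Metric.ball ξ' η := by
    intro x hx
    have h1 := hR (hts hx)
    rw [mem_ball_zero_iff, hA] at h1
    simp only [norm_smul, norm_inv, Real.norm_eq_abs, abs_of_pos hε0] at h1
    rw [Metric.mem_ball, dist_eq_norm]
    rw [inv_mul_lt_iff₀ hε0, hε] at h1
    rwa [div_mul_cancel₀ _ hR0.ne'] at h1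
  have hWs : ContDiff ℝ ∞ W := hw.comp hAs
  have hWc : HasCompactSupport W :=
    Metric.isCompact_of_isClosed_isBounded (isClosed_tsupport W)
      (Metric.isBounded_ball.subset hin)
  obtain ⟨u, hu, h1, h2⟩ := lift (b := α + δ) hp hα hΘ hWs hWc
    fun x hx => ⟨(hball (hin x hx)).1, (hball (hin x hx)).2.le⟩
  refine ⟨ε, hε0, u, hu, le_trans (le_of_eq ?_) h1, h2.trans (le_of_eq ?_)⟩
  · rw [← lintegral_scale (g := fun x => ‖w x‖ₑ ^ p)
      (hw.continuous.measurable.enorm.pow_const p) hε0 ξ']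
  · rw [← lintegral_scale (g := fun x => ‖fderiv ℝ w x‖ₑ ^ 2)
      ((hw.continuous_fderiv (by simp)).enorm.measurable.pow_const 2) hε0 ξ',
      ← lintegral_const_mul' (ENNReal.ofReal (ε⁻¹ ^ 2)) _ ENNReal.ofReal_ne_top]
    congr 2
    refine lintegral_congr fun x => ?_
    have h3 : fderiv ℝ W x = ε⁻¹ • fderiv ℝ w (A x) := by
      have h4 : HasFDerivAt A (ε⁻¹ • ContinuousLinearMap.id ℝ _) x :=
        ((hasFDerivAt_id x).sub_const ξ').const_smul ε⁻¹
      have h5 := ((hw.differentiable (by simp)) (A x)).hasFDerivAt.comp x h4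
      refine h5.fderiv.trans ?_
      ext1 y
      simp
    rw [h3, enorm_sq, enorm_sq, ← ENNReal.ofReal_mul (by positivity), norm_smul, mul_pow]
    simp [hA]

end Pool.Agent.Lib.MP_ce3dc4_an
end

-- part Pool.Agent.Lib.MP_ce3dc4_an.Alg
section

/-!
Algebraic properties of the functionals.
-/

open MeasureTheory Filter Topology Set
open scoped ContDiff InnerProductSpace ENNReal Real

set_option linter.unusedSectionVars false

namespace Pool.Agent.Lib.MP_ce3dc4_an

theorem abs_pow_mul {p : ℝ} (hp : 2 < p) (a : ℝ) : |a| ^ (p - 2) * |a| = |a| ^ (p - 1) := by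
  have : p - 1 = (p - 2) + 1 := by ring
  rw [this, Real.rpow_add' (abs_nonneg a) (by linarith), Real.rpow_one]

theorem abs_pow_mul_self {p : ℝ} (hp : 2 < p) (a : ℝ) : |a| ^ (p - 2) * a * a = |a| ^ p := by
  have : p = (p - 2) + 2 := by ring
  conv_rhs => rw [this, Real.rpow_add' (abs_nonneg a) (by linarith), Real.rpow_two, sq_abs]
  ring

theorem young {p : ℝ} (hp : 2 < p) (a b : ℝ) :
    abs (|a| ^ (p - 2) * a * b) ≤ (1 - 1 / p) * |a| ^ p + (1 / p) * |b| ^ p := by
  have hpq : (p / (p - 1)).HolderConjugate p :=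
    (Real.HolderConjugate.conjExponent (by linarith : 1 < p)).symm
  have h := Real.young_inequality_of_nonneg (Real.rpow_nonneg (abs_nonneg a) (p - 1))
    (abs_nonneg b) hpq
  rw [abs_mul, abs_mul, abs_of_nonneg (Real.rpow_nonneg (abs_nonneg a) _), abs_pow_mul hp]
  refine h.trans (le_of_eq ?_)
  rw [← Real.rpow_mul (abs_nonneg a)]
  have h1 : (p - 1) * (p / (p - 1)) = p := by
    have : p - 1 ≠ 0 := by linarith
    field_simp
  rw [h1]
  have : p - 1 ≠ 0 := by linarith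
  have : p ≠ 0 := by linarith
  field_simp

section
variable {X : Type*} [MeasurableSpace X] {μ : Measure X} {p : ℝ} {f h : X → ℝ}

theorem integrable_L (hp : 2 < p) (hf : Measurable f) (hh : Measurable h)
    (i1 : Integrable (fun x => |f x| ^ p) μ) (i2 : Integrable (fun x => |h x| ^ p) μ) :
    Integrable (fun x => |f x| ^ (p - 2) * f x * h x) μ := by
  refine Integrable.mono' ((i1.const_mul (1 - 1 / p)).add (i2.const_mul (1 / p)))
    (Measurable.aestronglyMeasurable (by fun_prop)) (Eventually.of_forall fun x => ?_)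
  exact young hp _ _

theorem holder (hp : 2 < p) (hf : Measurable f) (hh : Measurable h)
    (i1 : Integrable (fun x => |f x| ^ p) μ) (i2 : Integrable (fun x => |h x| ^ p) μ)
    (h1 : ∫ x, |f x| ^ p ∂μ = 1) :
    ∫ x, |f x| ^ (p - 2) * f x * h x ∂μ ≤ (∫ x, |h x| ^ p ∂μ) ^ (1 / p) := by
  have hp0 : 0 < p := by linarith
  set b := ∫ x, |h x| ^ p ∂μ with hb
  have hb0 : 0 ≤ b := integral_nonneg fun x => by positivity
  have main : ∀ t : ℝ, 0 < t → ∫ x, |f x| ^ (p - 2) * f x * h x ∂μ ≤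
      t * ((1 - 1 / p) + (1 / p) * (b / t ^ p)) := by
    intro t ht
    have e : t * ((1 - 1 / p) + (1 / p) * (b / t ^ p)) =
        ∫ x, t * ((1 - 1 / p) * |f x| ^ p + (1 / p / t ^ p) * |h x| ^ p) ∂μ := by
      rw [integral_const_mul, integral_add (i1.const_mul _) (i2.const_mul _), integral_const_mul,
        integral_const_mul, h1]
      ring
    rw [e]
    refine integral_mono (integrable_L hp hf hh i1 i2)
      (((i1.const_mul _).add (i2.const_mul _)).const_mul t) fun x => ?_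
    have h2 := (le_abs_self _).trans (young hp (f x) (h x / t))
    rw [abs_div, abs_of_pos ht, Real.div_rpow (abs_nonneg _) ht.le] at h2
    have h3 : |f x| ^ (p - 2) * f x * h x = t * (|f x| ^ (p - 2) * f x * (h x / t)) := by
      field_simp
    simp only
    rw [h3]
    refine mul_le_mul_of_nonneg_left (h2.trans (le_of_eq ?_)) ht.le
    ring
  rcases hb0.eq_or_lt with h0 | h0
  · rw [← h0, Real.zero_rpow (by positivity)]
    refine le_of_forall_pos_le_add fun t ht => (main t ht).trans ?_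
    rw [← h0]
    have : 0 < 1 / p := by positivity
    simp only [zero_div, mul_zero, add_zero, zero_add]
    nlinarith
  · have ht : 0 < b ^ (1 / p) := Real.rpow_pos_of_pos h0 _
    refine (main _ ht).trans (le_of_eq ?_)
    rw [← Real.rpow_mul hb0, one_div_mul_cancel hp0.ne', Real.rpow_one, div_self h0.ne']
    ring

theorem lint_eq (hp : 0 < p) (hf : Measurable f) (hfin : ∫⁻ x, ‖f x‖ₑ ^ p ∂μ ≠ ⊤) :
    Integrable (fun x => |f x| ^ p) μ ∧
      ∫⁻ x, ‖f x‖ₑ ^ p ∂μ = ENNReal.ofReal (∫ x, |f x| ^ p ∂μ) := by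
  have e : ∀ x, ‖f x‖ₑ ^ p = ENNReal.ofReal (|f x| ^ p) := fun x => by
    rw [← ofReal_norm, ENNReal.ofReal_rpow_of_nonneg (norm_nonneg _) hp.le, Real.norm_eq_abs]
  simp only [e] at hfin ⊢
  have hi : Integrable (fun x => |f x| ^ p) μ := by
    refine ⟨Measurable.aestronglyMeasurable (by fun_prop), ?_⟩
    rw [hasFiniteIntegral_iff_ofReal (Eventually.of_forall fun x => by positivity)]
    exact hfin.lt_top
  exact ⟨hi, (ofReal_integral_eq_lintegral_ofReal hi
    (Eventually.of_forall fun x => by positivity)).symm⟩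

end

variable {N : ℕ}

/-- the quadratic form -/
noncomputable def QQ (l : ℝ) (u w : Pr N) : ℝ := ⟪u.2, w.2⟫_ℝ - l * ⟪u.1, w.1⟫_ℝ

/-- the potential term -/
noncomputable def BB (u : Pr N) : ℝ := ∫ x, |u.1 x| ^ ex N

/-- the derivative of the potential term -/
noncomputable def LL (u w : Pr N) : ℝ := ∫ x, |u.1 x| ^ (ex N - 2) * u.1 x * w.1 x

theorem QQ_self (l : ℝ) (u : Pr N) : QQ l u u = ‖u.2‖ ^ 2 - l * ‖u.1‖ ^ 2 := by
  simp [QQ]

theorem J_eq (l : ℝ) (u : Pr N) : J l u = QQ l u u / 2 - BB u / ex N := by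
  have h1 : ∫ x, u.1 x ^ 2 = ‖u.1‖ ^ 2 := by
    rw [← integral_sq_L2]; simp
  rw [J, QQ_self, integral_sq_L2, h1, BB]
  ring

theorem dJ_eq (l : ℝ) (u w : Pr N) : dJ l u w = QQ l u w - LL u w := by
  have h1 : ∫ x, u.1 x * w.1 x = ⟪u.1, w.1⟫_ℝ := by
    rw [L2.inner_def]; simp [mul_comm]
  rw [dJ, QQ, LL, h1, L2.inner_def u.2]

theorem QQ_smul (l t : ℝ) (u w : Pr N) : QQ l (t • u) w = t * QQ l u w := by
  simp only [QQ, Prod.smul_snd, Prod.smul_fst, real_inner_smul_left]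
  ring

theorem QQ_smul_self (l t : ℝ) (u : Pr N) : QQ l (t • u) (t • u) = t ^ 2 * QQ l u u := by
  simp only [QQ, Prod.smul_snd, Prod.smul_fst, real_inner_smul_left, real_inner_smul_right]
  ring

theorem QQ_expand (l s : ℝ) (u w : Pr N) :
    QQ l (u + s • w) (u + s • w) = QQ l u u + 2 * s * QQ l u w + s ^ 2 * QQ l w w := by
  simp only [QQ, Prod.smul_snd, Prod.smul_fst, Prod.fst_add, Prod.snd_add, inner_add_left,
    inner_add_right, real_inner_smul_left, real_inner_smul_right, real_inner_comm u.1 w.1,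
    real_inner_comm u.2 w.2]
  ring

theorem ex_gt (hN : 4 ≤ N) : 2 < ex N := by
  have h : (4 : ℝ) ≤ N := by exact_mod_cast hN
  rw [ex, lt_div_iff₀ (by linarith)]
  linarith

theorem BB_nonneg (u : Pr N) : 0 ≤ BB u := integral_nonneg fun x => by positivity

theorem BB_smul {t : ℝ} (ht : 0 ≤ t) (u : Pr N) : BB (t • u) = t ^ ex N * BB u := by
  rw [BB, BB, ← integral_const_mul]
  refine integral_congr_ae ?_
  filter_upwards [Lp.coeFn_smul t u.1] with x hx
  rw [Prod.smul_fst, hx, Pi.smul_apply, smul_eq_mul, abs_mul, abs_of_nonneg ht,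
    Real.mul_rpow ht (abs_nonneg _)]

theorem LL_smul {t : ℝ} (ht : 0 ≤ t) (u w : Pr N) :
    LL (t • u) w = t ^ (ex N - 2) * t * LL u w := by
  rw [LL, LL, ← integral_const_mul]
  refine integral_congr_ae ?_
  filter_upwards [Lp.coeFn_smul t u.1] with x hx
  rw [Prod.smul_fst, hx, Pi.smul_apply, smul_eq_mul, abs_mul, abs_of_nonneg ht,
    Real.mul_rpow ht (abs_nonneg _)]
  ring

theorem LL_self (hN : 4 ≤ N) (u : Pr N) : LL u u = BB u := by
  simp only [LL, BB, abs_pow_mul_self (ex_gt hN)]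

theorem meas1 (u : Pr N) : Measurable (u.1 : Sp N → ℝ) := (Lp.stronglyMeasurable u.1).measurable

theorem LL_add (hN : 4 ≤ N) (s : ℝ) {u w : Pr N} (i1 : Integrable (fun x => |u.1 x| ^ ex N))
    (i2 : Integrable (fun x => |w.1 x| ^ ex N)) : LL u (u + s • w) = BB u + s * LL u w := by
  rw [← LL_self hN, LL, LL, LL, ← integral_const_mul, ← integral_add
    (integrable_L (ex_gt hN) (meas1 u) (meas1 u) i1 i1)
    ((integrable_L (ex_gt hN) (meas1 u) (meas1 w) i1 i2).const_mul s)]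
  refine integral_congr_ae ?_
  filter_upwards [Lp.coeFn_add u.1 (s • w.1), Lp.coeFn_smul s w.1] with x h1 h2
  rw [Prod.fst_add, Prod.smul_fst, h1, Pi.add_apply, h2, Pi.smul_apply, smul_eq_mul]
  ring

theorem BB_zero (hN : 4 ≤ N) {u : Pr N} (h : u.1 = 0) : BB u = 0 := by
  rw [BB, h, ← integral_zero (Sp N) ℝ (μ := volume)]
  refine integral_congr_ae ?_
  filter_upwards [Lp.coeFn_zero ℝ 2 (volume : Measure (Sp N))] with x hx
  rw [hx, Pi.zero_apply, abs_zero, Real.zero_rpow (by linarith [ex_gt hN])]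

theorem HH_smul {Θ : Set (ℝ × Zs N)} {u : Pr N} (hu : u ∈ HH Θ) (t : ℝ) : t • u ∈ HH Θ := by
  refine ⟨map_mem_closure (f := fun v : Pr N => t • v) (by fun_prop) hu.1 ?_, fun g => ?_⟩
  · rintro v ⟨φ, h1, h2, h3, h4, h5⟩
    refine ⟨fun x => t * φ x, contDiff_const.mul h1, h2.mul_left,
      (tsupport_mul_subset_right).trans h3, ?_, ?_⟩
    · filter_upwards [Lp.coeFn_smul t v.1, h4] with x hx h6
      rw [Prod.smul_fst, hx, Pi.smul_apply, h6, smul_eq_mul]
    · filter_upwards [Lp.coeFn_smul t v.2, h5] with x hx h6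
      rw [Prod.smul_snd, hx, Pi.smul_apply, h6]
      unfold gradient
      rw [fderiv_const_mul (h1.differentiable (by simp) x), map_smul]
  · have hL := (LinearIsometryEquiv.withLpProdCongr 2 g
      (LinearIsometryEquiv.refl ℝ (Zs N))).measurePreserving
    filter_upwards [hL.quasiMeasurePreserving.ae (Lp.coeFn_smul t u.1), Lp.coeFn_smul t u.1,
      hu.2 g] with x h1 h2 h3
    rw [Prod.smul_fst, h2, Pi.smul_apply, ← h3]
    exact h1

theorem HH_add {Θ : Set (ℝ × Zs N)} {u w : Pr N} (hu : u ∈ HH Θ) (hw : w ∈ HH Θ) :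
    u + w ∈ HH Θ := by
  refine ⟨map_mem_closure₂ (f := fun v v' : Pr N => v + v') continuous_add hu.1 hw.1 ?_,
    fun g => ?_⟩
  · rintro v ⟨φ, h1, h2, h3, h4, h5⟩ v' ⟨ψ, k1, k2, k3, k4, k5⟩
    refine ⟨fun x => φ x + ψ x, h1.add k1, h2.add k2,
      (tsupport_add φ ψ).trans (union_subset h3 k3), ?_, ?_⟩
    · filter_upwards [Lp.coeFn_add v.1 v'.1, h4, k4] with x hx h6 k6
      rw [Prod.fst_add, hx, Pi.add_apply, h6, k6]
    · filter_upwards [Lp.coeFn_add v.2 v'.2, h5, k5] with x hx h6 k6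
      rw [Prod.snd_add, hx, Pi.add_apply, h6, k6]
      unfold gradient
      rw [fderiv_fun_add (h1.differentiable (by simp) x) (k1.differentiable (by simp) x), map_add]
  · have hL := (LinearIsometryEquiv.withLpProdCongr 2 g
      (LinearIsometryEquiv.refl ℝ (Zs N))).measurePreserving
    filter_upwards [hL.quasiMeasurePreserving.ae (Lp.coeFn_add u.1 w.1), Lp.coeFn_add u.1 w.1,
      hu.2 g, hw.2 g] with x h1 h2 h3 h4
    rw [Prod.fst_add, h2, Pi.add_apply, ← h3, ← h4]
    exact h1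

/-- the Gagliardo-Nirenberg-Sobolev inequality gives a positive admissible constant -/
theorem exists_good (hN : 4 ≤ N) : ∃ s : ℝ, 0 < s ∧ Good (Zs N) (ex N) (ENNReal.ofReal s) := by
  have hp := ex_gt hN
  have hp0 : 0 < ex N := by linarith
  set C : NNReal := eLpNormLESNormFDerivOfEqInnerConst
    (volume : Measure (WithLp 2 (ℝ × Zs N))) ((2 : NNReal) : ℝ) with hC
  refine ⟨((C : ℝ) ^ 2 + 1)⁻¹, by positivity, fun w hw hwc => ?_⟩
  have hN' : (4 : ℝ) ≤ N := by exact_mod_cast hN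
  obtain ⟨P, hP⟩ : ∃ P : NNReal, (P : ℝ) = ex N := ⟨(ex N).toNNReal, Real.coe_toNNReal _ hp0.le⟩
  have hP0 : P ≠ 0 := by
    intro h0
    rw [h0] at hP
    exact hp0.ne hP
  have h := eLpNorm_le_eLpNorm_fderiv_of_eq_inner (volume : Measure (WithLp 2 (ℝ × Zs N)))
    (hw.of_le (by simp)) hwc (p := 2) (p' := P) (by norm_num)
    (by rw [finrank_F hN]; omega) (by
      rw [finrank_F hN, Nat.cast_sub (by omega), hP]
      simp only [ex, NNReal.coe_inv, NNReal.coe_ofNat, Nat.cast_one]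
      have : (N : ℝ) - 1 ≠ 0 := by linarith
      have : (N : ℝ) - 3 ≠ 0 := by linarith
      field_simp
      ring)
  rw [eLpNorm_nnreal_eq_lintegral hP0,
    eLpNorm_nnreal_eq_lintegral (by norm_num), ← hC, hP] at h
  simp only [NNReal.coe_ofNat] at h
  have h2 := ENNReal.rpow_le_rpow h (z := 2) (by norm_num)
  rw [← ENNReal.rpow_mul, ENNReal.mul_rpow_of_nonneg _ _ (by norm_num), ← ENNReal.rpow_mul] at h2
  have e1 : 1 / ex N * 2 = 2 / ex N := by ring
  have e2 : (1 / 2 : ℝ) * 2 = 1 := by norm_num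
  rw [e1, e2, ENNReal.rpow_one] at h2
  simp only [ENNReal.rpow_two] at h2
  refine (mul_le_mul_right h2 _).trans ?_
  rw [← mul_assoc]
  refine mul_le_of_le_one_left (zero_le) ?_
  rw [← ENNReal.ofReal_coe_nnreal, ← ENNReal.ofReal_pow (by positivity),
    ← ENNReal.ofReal_mul (by positivity), ENNReal.ofReal_le_one, inv_mul_le_iff₀ (by positivity)]
  linarith

end Pool.Agent.Lib.MP_ce3dc4_an
end
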