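import Pool.Agent.Lib.MP_ce3dc4_an.Stmt

/-!
Unfolded copies of the definitions of `Stmt`, used in the proofs.
-/

open MeasureTheory Filter Topology Set
open scoped ContDiff InnerProductSpace

namespace Pool.Agent.Lib.MP_ce3dc4_an

/-- Euclidean space of dimension `N`, written as the orthogonal product of `Pl` and `Zs N`. -/
abbrev Sp (N : ℕ) : Type := WithLp 2 (Pl × Zs N)

/-- Pairs (function, vector field) in `L^2`. -/
abbrev Pr (N : ℕ) : Type :=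
  Lp ℝ 2 (volume : Measure (Sp N)) × Lp (Sp N) 2 (volume : Measure (Sp N))

variable {N : ℕ}

/-- The domain `Ω = {(y, z) : (|y|, z) ∈ Θ}`. -/
def Om (Θ : Set (ℝ × Zs N)) : Set (Sp N) := {x | (‖x.fst‖, x.snd) ∈ Θ}

/-- The Sobolev space `H^1_0(Ω)`, as pairs (function, weak gradient): the closure in
`L^2 × L^2` of the pairs `(φ, ∇φ)` with `φ` smooth and compactly supported in `Ω`. -/
def H10 (Ω : Set (Sp N)) : Set (Pr N) :=
  closure {u | ∃ φ : Sp N → ℝ, ContDiff ℝ ∞ φ ∧ HasCompactSupport φ ∧ tsupport φ ⊆ Ω ∧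
    u.1 =ᵐ[volume] φ ∧ u.2 =ᵐ[volume] gradient φ}

/-- The space `H` of `O(2)`-invariant elements of `H^1_0(Ω)`. -/
def HH (Θ : Set (ℝ × Zs N)) : Set (Pr N) :=
  {u | u ∈ H10 (Om Θ) ∧ ∀ g : Pl ≃ₗᵢ[ℝ] Pl,
    (fun x : Sp N => u.1 (WithLp.toLp 2 (g x.fst, x.snd))) =ᵐ[volume] u.1}

/-- The energy `J_λ`. -/
noncomputable def J (l : ℝ) (u : Pr N) : ℝ :=
  (1 / 2) * (∫ x, ‖u.2 x‖ ^ 2) - (l / 2) * (∫ x, u.1 x ^ 2) -
    (1 / ex N) * ∫ x, |u.1 x| ^ ex N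

/-- The derivative `J_λ'(u)` evaluated at `w`. -/
noncomputable def dJ (l : ℝ) (u w : Pr N) : ℝ :=
  (∫ x, ⟪u.2 x, w.2 x⟫_ℝ) - l * (∫ x, u.1 x * w.1 x) -
    ∫ x, |u.1 x| ^ (ex N - 2) * u.1 x * w.1 x

/-- There is a Palais-Smale sequence in `H` at level `τ`: the energies tend to `τ` and the
derivatives tend to zero in the dual of `H`. -/
def HasPS (Θ : Set (ℝ × Zs N)) (l τ : ℝ) : Prop :=
  ∃ (v : ℕ → Pr N) (ε : ℕ → ℝ), (∀ j, v j ∈ HH Θ) ∧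
    Tendsto (fun j => J l (v j)) atTop (𝓝 τ) ∧ Tendsto ε atTop (𝓝 0) ∧
    ∀ j, ∀ w ∈ HH Θ, |dJ l (v j) w| ≤ ε j * ‖w‖

/-- The level `ℓ_λ`. -/
noncomputable def level (Θ : Set (ℝ × Zs N)) (l : ℝ) : ℝ := sInf {τ | 0 < τ ∧ HasPS Θ l τ}

/-- Ground states: critical points of `J_λ` on `H` at the level `ℓ_λ`. -/
def IsGroundState (Θ : Set (ℝ × Zs N)) (l : ℝ) (u : Pr N) : Prop :=
  u ∈ HH Θ ∧ (∀ w ∈ HH Θ, dJ l u w = 0) ∧ J l u = level Θ l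

theorem isGroundState_iff (Θ : Set (ℝ × Zs N)) (l : ℝ) (u : Pr N) :
    St.IsGroundState Θ l u ↔ IsGroundState Θ l u := Iff.rfl

end Pool.Agent.Lib.MP_ce3dc4_an
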