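import Pool.Agent.Lib.MP_ce3dc4_an.Alg

/-!
The variational argument.
-/

open MeasureTheory Filter Topology Set
open scoped ContDiff InnerProductSpace ENNReal Real

set_option linter.unusedSectionVars false

namespace Pool.Agent.Lib.MP_ce3dc4_an

variable {N : ℕ}

/-- standing hypotheses -/
structure Hyp (Θ : Set (ℝ × Zs N)) (α β c : ℝ) : Prop where
  hN : 4 ≤ N
  hα : 0 < α
  hc : 0 < c
  hcb : c * (β ^ 2 - α ^ 2) ≤ 1
  ho : IsOpen Θ
  hΘ : ∀ x ∈ Θ, α ≤ x.1 ∧ x.1 ≤ β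
  happ : ∀ δ : ℝ, 0 < δ → ∃ ξ ∈ Θ, ξ.1 < α + δ

variable {Θ : Set (ℝ × Zs N)} {α β c l : ℝ}

namespace Hyp

theorem fin (H : Hyp Θ α β c) {u : Pr N} (hu : u ∈ HH Θ) : ∫⁻ x, ‖u.1 x‖ₑ ^ ex N ≠ ⊤ := by
  have hp0 : 0 < ex N := by linarith [ex_gt H.hN]
  obtain ⟨s, hs, hg⟩ := exists_good H.hN
  have h := (key hp0 H.hα H.hc.le H.hcb ENNReal.ofReal_ne_top hg H.hΘ hu).2
  intro ht
  have hM : 0 < 2 * π * α := mul_pos Real.two_pi_pos H.hα
  rw [ht, ENNReal.top_div_of_ne_top ENNReal.ofReal_ne_top,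
    ENNReal.top_rpow_of_pos (by positivity), ENNReal.mul_top] at h
  · exact ENNReal.ofReal_ne_top (top_le_iff.1 h)
  · exact mul_ne_zero (ENNReal.ofReal_pos.2 hs).ne' (ENNReal.ofReal_pos.2 hM).ne'

/-- the embedding of `H` in `L^p`: the potential term is a convergent integral -/
theorem integrable (H : Hyp Θ α β c) {u : Pr N} (hu : u ∈ HH Θ) :
    Integrable (fun x => |u.1 x| ^ ex N) :=
  (lint_eq (by linarith [ex_gt H.hN]) (meas1 u) (H.fin hu)).1

theorem lint (H : Hyp Θ α β c) {u : Pr N} (hu : u ∈ HH Θ) :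
    ∫⁻ x, ‖u.1 x‖ₑ ^ ex N = ENNReal.ofReal (BB u) :=
  (lint_eq (by linarith [ex_gt H.hN]) (meas1 u) (H.fin hu)).2

theorem poin (H : Hyp Θ α β c) {u : Pr N} (hu : u ∈ HH Θ) : c * ‖u.1‖ ^ 2 ≤ ‖u.2‖ ^ 2 := by
  have hp0 : 0 < ex N := by linarith [ex_gt H.hN]
  obtain ⟨s, hs, hg⟩ := exists_good H.hN
  exact (key hp0 H.hα H.hc.le H.hcb ENNReal.ofReal_ne_top hg H.hΘ hu).1

theorem keyR (H : Hyp Θ α β c) {s : ℝ} (hs : 0 ≤ s) (hg : Good (Zs N) (ex N) (ENNReal.ofReal s))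
    {u : Pr N} (hu : u ∈ HH Θ) :
    s * (2 * π * α) * (BB u / (2 * π * α)) ^ (2 / ex N) ≤ ‖u.2‖ ^ 2 - c * ‖u.1‖ ^ 2 := by
  have hp0 : 0 < ex N := by linarith [ex_gt H.hN]
  have hM : 0 < 2 * π * α := mul_pos Real.two_pi_pos H.hα
  have h := (key hp0 H.hα H.hc.le H.hcb ENNReal.ofReal_ne_top hg H.hΘ hu).2
  have hB := BB_nonneg u
  rw [H.lint hu, ← ENNReal.ofReal_div_of_pos hM,
    ENNReal.ofReal_rpow_of_nonneg (by positivity) (by positivity), ← ENNReal.ofReal_mul hs,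
    ← ENNReal.ofReal_mul (by positivity),
    ENNReal.ofReal_le_ofReal_iff (by linarith [H.poin hu])] at h
  exact h

theorem exists_one (H : Hyp Θ α β c) : ∃ u ∈ HH Θ, BB u = 1 := by
  have hp0 : 0 < ex N := by linarith [ex_gt H.hN]
  have hM : 0 < 2 * π * α := mul_pos Real.two_pi_pos H.hα
  let b : ContDiffBump (0 : WithLp 2 (ℝ × Zs N)) := ⟨1, 2, one_pos, one_lt_two⟩
  obtain ⟨ξ, hξ, hξ1⟩ := H.happ 1 one_pos
  obtain ⟨ε, hε, u, hu, h1, -⟩ := bubble hp0 H.hα H.ho (fun x hx => (H.hΘ x hx).1) hξ hξ1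
    (w := b) b.contDiff b.hasCompactSupport
  have hb : 0 < ∫⁻ x, ‖b x‖ₑ ^ ex N := by
    rw [lintegral_pos_iff_support (b.continuous.measurable.enorm.pow_const _)]
    refine lt_of_lt_of_le (Metric.measure_ball_pos volume 0 one_pos) (measure_mono fun x hx => ?_)
    have : b x = 1 := b.one_of_mem_closedBall (Metric.ball_subset_closedBall hx)
    simp [this]
  have hB : 0 < BB u := by
    rw [H.lint hu] at h1
    rw [← ENNReal.ofReal_pos]
    refine lt_of_lt_of_le ?_ h1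
    refine ENNReal.mul_pos (ENNReal.ofReal_pos.2 hM).ne' (mul_ne_zero ?_ hb.ne')
    exact (ENNReal.ofReal_pos.2 (by positivity)).ne'
  refine ⟨(BB u) ^ (-(1 / ex N)) • u, HH_smul hu _, ?_⟩
  rw [BB_smul (by positivity), ← Real.rpow_mul hB.le, neg_mul, one_div_mul_cancel hp0.ne',
    Real.rpow_neg_one, inv_mul_cancel₀ hB.ne']

end Hyp

/-- the infimum of the quadratic form on the unit sphere of `L^p` -/
noncomputable def II (Θ : Set (ℝ × Zs N)) (l : ℝ) : ℝ :=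
  sInf {x | ∃ u ∈ HH Θ, BB u = 1 ∧ x = QQ l u u}

namespace Hyp

theorem QQ_ge (hl : l < c) (u : Pr N) :
    ‖u.2‖ ^ 2 - c * ‖u.1‖ ^ 2 + (c - l) * ‖u.1‖ ^ 2 = QQ l u u := by
  rw [QQ_self]; ring

theorem QQ_nonneg (H : Hyp Θ α β c) (hl : l < c) {u : Pr N} (hu : u ∈ HH Θ) : 0 ≤ QQ l u u := by
  rw [← QQ_ge hl]
  have := H.poin hu
  have : 0 ≤ (c - l) * ‖u.1‖ ^ 2 := mul_nonneg (by linarith) (by positivity)
  linarith

theorem bdd (H : Hyp Θ α β c) (hl : l < c) :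
    BddBelow {x | ∃ u ∈ HH Θ, BB u = 1 ∧ x = QQ l u u} :=
  ⟨0, by rintro x ⟨u, hu, -, rfl⟩; exact H.QQ_nonneg hl hu⟩

theorem ne (H : Hyp Θ α β c) : {x | ∃ u ∈ HH Θ, BB u = 1 ∧ x = QQ l u u}.Nonempty := by
  obtain ⟨u, hu, h1⟩ := H.exists_one
  exact ⟨_, u, hu, h1, rfl⟩

theorem II_pos (H : Hyp Θ α β c) (hl : l < c) : 0 < II Θ l := by
  obtain ⟨s, hs, hg⟩ := exists_good H.hN
  have hM : 0 < 2 * π * α := mul_pos Real.two_pi_pos H.hα
  refine lt_of_lt_of_le (b := s * (2 * π * α) * (1 / (2 * π * α)) ^ (2 / ex N)) (by positivity)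
    (le_csInf H.ne ?_)
  rintro x ⟨u, hu, h1, rfl⟩
  have h := H.keyR hs.le hg hu
  rw [h1] at h
  rw [← QQ_ge hl]
  have : 0 ≤ (c - l) * ‖u.1‖ ^ 2 := mul_nonneg (by linarith) (by positivity)
  linarith

theorem II_le (H : Hyp Θ α β c) (hl : l < c) {u : Pr N} (hu : u ∈ HH Θ) :
    II Θ l * BB u ^ (2 / ex N) ≤ QQ l u u := by
  have hp0 : 0 < ex N := by linarith [ex_gt H.hN]
  rcases (BB_nonneg u).eq_or_lt with h0 | hB
  · rw [← h0, Real.zero_rpow (by positivity), mul_zero]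
    exact H.QQ_nonneg hl hu
  · have h1 : BB ((BB u) ^ (-(1 / ex N)) • u) = 1 := by
      rw [BB_smul (by positivity), ← Real.rpow_mul hB.le, neg_mul, one_div_mul_cancel hp0.ne',
        Real.rpow_neg_one, inv_mul_cancel₀ hB.ne']
    have h2 : II Θ l ≤ _ := csInf_le (H.bdd hl) ⟨_, HH_smul hu _, h1, rfl⟩
    rw [QQ_smul_self, ← Real.rpow_natCast, ← Real.rpow_mul hB.le] at h2
    have e : -(1 / ex N) * ((2 : ℕ) : ℝ) = -(2 / ex N) := by push_cast; ring
    rw [e, Real.rpow_neg hB.le, le_inv_mul_iff₀ (by positivity), mul_comm] at h2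
    exact h2

theorem good_II (H : Hyp Θ α β c) (hl0 : 0 ≤ l) (hl : l < c) :
    Good (Zs N) (ex N)
      (ENNReal.ofReal (II Θ l * (2 * π * α) ^ (2 / ex N) / (2 * π * α))) := by
  intro w hw hwc
  have hp := ex_gt H.hN
  have hp0 : 0 < ex N := by linarith
  have hM : 0 < 2 * π * α := mul_pos Real.two_pi_pos H.hα
  have hI := H.II_pos hl
  set P := ∫⁻ x, ‖w x‖ₑ ^ ex N with hP
  set D := ∫⁻ x, ‖fderiv ℝ w x‖ₑ ^ 2 with hD
  have hq : 0 ≤ 2 / ex N := by positivity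
  have main : ∀ δ : ℝ, 0 < δ →
      ENNReal.ofReal (II Θ l * (2 * π * α) ^ (2 / ex N)) * P ^ (2 / ex N) ≤
        ENNReal.ofReal (2 * π * (α + δ)) * D := by
    intro δ hδ
    obtain ⟨ξ, hξ, hξ1⟩ := H.happ δ hδ
    obtain ⟨ε, hε, u, hu, h1, h2⟩ := bubble hp0 H.hα H.ho (fun x hx => (H.hΘ x hx).1) hξ hξ1
      hw hwc
    rw [finrank_F H.hN, ← hP] at h1
    rw [finrank_F H.hN, ← hD] at h2
    have h3 : II Θ l * BB u ^ (2 / ex N) ≤ ‖u.2‖ ^ 2 := by
      refine (H.II_le hl hu).trans ?_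
      rw [QQ_self]
      have : 0 ≤ l * ‖u.1‖ ^ 2 := by positivity
      linarith
    have h4 := (ENNReal.ofReal_le_ofReal h3).trans h2
    rw [ENNReal.ofReal_mul hI.le, ← ENNReal.ofReal_rpow_of_nonneg (BB_nonneg u) hq,
      ← H.lint hu] at h4
    have h5 := (mul_le_mul_right (ENNReal.rpow_le_rpow h1 hq) _).trans h4
    rw [ENNReal.mul_rpow_of_nonneg _ _ hq, ENNReal.mul_rpow_of_nonneg _ _ hq,
      ENNReal.ofReal_rpow_of_nonneg hM.le hq, ENNReal.ofReal_rpow_of_nonneg (by positivity) hq]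
      at h5
    have e : (ε ^ (N - 1)) ^ (2 / ex N) = ε⁻¹ ^ 2 * ε ^ (N - 1) := by
      have hN' : (4 : ℝ) ≤ N := by exact_mod_cast H.hN
      rw [← Real.rpow_natCast ε (N - 1), ← Real.rpow_mul hε.le, inv_pow, ← Real.rpow_natCast ε 2,
        ← Real.rpow_neg hε.le, ← Real.rpow_add hε]
      congr 1
      rw [Nat.cast_sub (by have := H.hN; omega), ex]
      have : (N : ℝ) - 1 ≠ 0 := by linarith
      have : (N : ℝ) - 3 ≠ 0 := by linarith
      push_cast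
      field_simp
      ring
    rw [e, ← mul_assoc (ENNReal.ofReal (ε⁻¹ ^ 2)), ← ENNReal.ofReal_mul (by positivity)] at h5
    set E := ENNReal.ofReal (ε⁻¹ ^ 2 * ε ^ (N - 1)) with hE
    have hE0 : E ≠ 0 := (ENNReal.ofReal_pos.2 (by positivity)).ne'
    rw [← ENNReal.mul_le_mul_iff_right hE0 ENNReal.ofReal_ne_top, ENNReal.ofReal_mul hI.le,
      ENNReal.ofReal_mul Real.two_pi_pos.le]
    refine le_trans (le_of_eq ?_) (h5.trans (le_of_eq ?_)) <;> ring
  have lim : ENNReal.ofReal (II Θ l * (2 * π * α) ^ (2 / ex N)) * P ^ (2 / ex N) ≤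
      ENNReal.ofReal (2 * π * α) * D := by
    have ht : Tendsto (fun δ : ℝ => ENNReal.ofReal (2 * π * (α + δ)) * D) (𝓝[>] 0)
        (𝓝 (ENNReal.ofReal (2 * π * α) * D)) := by
      refine ENNReal.Tendsto.mul_const ?_ (Or.inl (ENNReal.ofReal_pos.2 hM).ne')
      refine ENNReal.tendsto_ofReal (tendsto_nhdsWithin_of_tendsto_nhds ?_)
      have : Continuous fun δ : ℝ => 2 * π * (α + δ) := by fun_prop
      simpa using this.tendsto 0
    exact ge_of_tendsto ht (eventually_mem_nhdsWithin.mono fun δ hδ => main δ hδ)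
  rw [← ENNReal.mul_le_mul_iff_right (ENNReal.ofReal_pos.2 hM).ne' ENNReal.ofReal_ne_top,
    ← mul_assoc, ← ENNReal.ofReal_mul hM.le, mul_div_cancel₀ _ hM.ne']
  exact lim

/-- the infimum is not attained, with a quantitative gap -/
theorem gap (H : Hyp Θ α β c) (hl0 : 0 ≤ l) (hl : l < c) {u : Pr N} (hu : u ∈ HH Θ) :
    II Θ l * BB u ^ (2 / ex N) + (c - l) * ‖u.1‖ ^ 2 ≤ QQ l u u := by
  have hM : 0 < 2 * π * α := mul_pos Real.two_pi_pos H.hα
  have hI := H.II_pos hl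
  have h := H.keyR (by positivity) (H.good_II hl0 hl) hu
  rw [div_mul_cancel₀ _ hM.ne', Real.div_rpow (BB_nonneg u) hM.le] at h
  have e : II Θ l * (2 * π * α) ^ (2 / ex N) * (BB u ^ (2 / ex N) / (2 * π * α) ^ (2 / ex N)) =
      II Θ l * BB u ^ (2 / ex N) := by
    have : (2 * π * α) ^ (2 / ex N) ≠ 0 := by positivity
    field_simp
  rw [e] at h
  rw [← QQ_ge hl]
  linarith

theorem almost (H : Hyp Θ α β c) (hl0 : 0 ≤ l) (hl : l < c) {u w : Pr N} (hu : u ∈ HH Θ)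
    (hw : w ∈ HH Θ) (h1 : BB u = 1) {η : ℝ} (hη : QQ l u u ≤ II Θ l + η) :
    |QQ l u w - II Θ l * LL u w| ≤ √η * ‖w‖ := by
  have hp := ex_gt H.hN
  have hp0 : 0 < ex N := by linarith
  have hI := H.II_pos hl
  have hd : ∀ s : ℝ, 0 ≤ QQ l w w * (s * s) + (2 * (QQ l u w - II Θ l * LL u w)) * s +
      (QQ l u u - II Θ l) := by
    intro s
    have hm := HH_add hu (HH_smul hw s)
    have h2 := H.II_le hl hm
    have h3 : LL u (u + s • w) ≤ BB (u + s • w) ^ (1 / ex N) :=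
      holder hp (meas1 u) (meas1 _) (H.integrable hu) (H.integrable hm) h1
    rw [LL_add H.hN s (H.integrable hu) (H.integrable hw), h1] at h3
    have h4 : BB (u + s • w) ^ (2 / ex N) = (BB (u + s • w) ^ (1 / ex N)) ^ 2 := by
      rw [← Real.rpow_natCast, ← Real.rpow_mul (BB_nonneg _)]
      congr 1; push_cast; ring
    rw [h4, QQ_expand] at h2
    set y := BB (u + s • w) ^ (1 / ex N)
    have h5 : 1 + 2 * (s * LL u w) ≤ y ^ 2 := by nlinarith [sq_nonneg (y - 1)]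
    have h6 := mul_le_mul_of_nonneg_left h5 hI.le
    nlinarith
  have hdisc := discrim_le_zero hd
  rw [discrim] at hdisc
  have hw1 : QQ l w w ≤ ‖w‖ ^ 2 := by
    rw [QQ_self]
    have : 0 ≤ l * ‖w.1‖ ^ 2 := by positivity
    have h2 : ‖w.2‖ ^ 2 ≤ ‖w‖ ^ 2 := by
      have := norm_snd_le w
      gcongr
    linarith
  have hw0 := H.QQ_nonneg hl hw
  have hu0 : 0 ≤ QQ l u u - II Θ l := by simpa using hd 0
  have hη0 : 0 ≤ η := by linarith
  refine abs_le_of_sq_le_sq' ?_ (by positivity) |> abs_le.2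
  rw [mul_pow, Real.sq_sqrt hη0]
  have : QQ l w w * (QQ l u u - II Θ l) ≤ ‖w‖ ^ 2 * η :=
    mul_le_mul hw1 (by linarith) hu0 (by positivity)
  nlinarith

end Hyp

/-- the scaling factor -/
noncomputable def tt (Θ : Set (ℝ × Zs N)) (l : ℝ) : ℝ := II Θ l ^ (1 / (ex N - 2))

namespace Hyp

theorem tt_pos (H : Hyp Θ α β c) (hl : l < c) : 0 < tt Θ l := Real.rpow_pos_of_pos (H.II_pos hl) _

theorem tt_pow (H : Hyp Θ α β c) (hl : l < c) : tt Θ l ^ (ex N - 2) = II Θ l := by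
  have hp := ex_gt H.hN
  rw [tt, ← Real.rpow_mul (H.II_pos hl).le, one_div_mul_cancel (by linarith), Real.rpow_one]

theorem tt_pow' (H : Hyp Θ α β c) (hl : l < c) : tt Θ l ^ ex N = II Θ l * tt Θ l ^ 2 := by
  rw [← H.tt_pow hl, ← Real.rpow_natCast, ← Real.rpow_add (H.tt_pos hl)]
  congr 1; push_cast; ring

theorem hasPS (H : Hyp Θ α β c) (hl0 : 0 ≤ l) (hl : l < c) :
    HasPS Θ l ((1 / 2 - 1 / ex N) * tt Θ l ^ ex N) := by
  have ht := H.tt_pos hl
  have h1 : ∀ j : ℕ, ∃ u ∈ HH Θ, BB u = 1 ∧ QQ l u u ≤ II Θ l + 1 / ((j : ℝ) + 1) := by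
    intro j
    obtain ⟨x, ⟨u, hu, hB, rfl⟩, hx⟩ := exists_lt_of_csInf_lt (H.ne (l := l))
      (lt_add_of_pos_right (II Θ l) (Nat.one_div_pos_of_nat (n := j)))
    exact ⟨u, hu, hB, hx.le⟩
  choose u hu hB hQ using h1
  have hz : Tendsto (fun j : ℕ => 1 / ((j : ℝ) + 1)) atTop (𝓝 0) :=
    tendsto_one_div_add_atTop_nhds_zero_nat
  have hQl : Tendsto (fun j => QQ l (u j) (u j)) atTop (𝓝 (II Θ l)) := by
    refine tendsto_of_tendsto_of_tendsto_of_le_of_le tendsto_const_nhds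
      (by simpa using hz.const_add (II Θ l)) (fun j => ?_) (fun j => by simpa using hQ j)
    exact csInf_le (H.bdd hl) ⟨_, hu j, hB j, rfl⟩
  refine ⟨fun j => tt Θ l • u j, fun j => tt Θ l * √(1 / ((j : ℝ) + 1)),
    fun j => HH_smul (hu j) _, ?_, ?_, fun j w hw => ?_⟩
  · simp only [J_eq, QQ_smul_self, BB_smul ht.le, hB, mul_one]
    have := ((hQl.const_mul (tt Θ l ^ 2)).div_const 2).sub_const (tt Θ l ^ ex N / ex N)
    convert this using 2
    rw [H.tt_pow' hl]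
    ring
  · simpa using hz.sqrt.const_mul (tt Θ l)
  · rw [dJ_eq, QQ_smul, LL_smul ht.le, H.tt_pow hl]
    have e : tt Θ l * QQ l (u j) w - II Θ l * tt Θ l * LL (u j) w =
        tt Θ l * (QQ l (u j) w - II Θ l * LL (u j) w) := by ring
    rw [e, abs_mul, abs_of_pos ht, mul_assoc]
    exact mul_le_mul_of_nonneg_left (H.almost hl0 hl (hu j) hw (hB j) (hQ j)) ht.le

theorem coer (H : Hyp Θ α β c) (hl0 : 0 ≤ l) (hl : l < c) :
    ∃ K : ℝ, 0 < K ∧ ∀ u ∈ HH Θ, ‖u‖ ^ 2 ≤ K * QQ l u u := by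
  have hc := H.hc
  have hcl : 0 < c - l := by linarith
  refine ⟨(c + 1) / (c - l), by positivity, fun u hu => ?_⟩
  have h1 := H.poin hu
  have h2 : ‖u‖ ^ 2 ≤ ‖u.1‖ ^ 2 + ‖u.2‖ ^ 2 := by
    rw [Prod.norm_def]
    rcases le_total ‖u.1‖ ‖u.2‖ with h | h
    · rw [max_eq_right h]; nlinarith [sq_nonneg ‖u.1‖]
    · rw [max_eq_left h]; nlinarith [sq_nonneg ‖u.2‖]
  rw [div_mul_eq_mul_div, le_div_iff₀ hcl, QQ_self]
  refine (mul_le_mul_of_nonneg_right h2 hcl.le).trans ?_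
  have h3 : 0 ≤ l * (‖u.2‖ ^ 2 - c * ‖u.1‖ ^ 2) := mul_nonneg hl0 (by linarith)
  nlinarith

theorem PS_lower (H : Hyp Θ α β c) (hl0 : 0 ≤ l) (hl : l < c) {τ : ℝ} (hτ : 0 < τ)
    (hPS : HasPS Θ l τ) : (1 / 2 - 1 / ex N) * tt Θ l ^ ex N ≤ τ := by
  obtain ⟨v, ε, hv, hJ, hε, hd⟩ := hPS
  have hp := ex_gt H.hN
  have hp0 : 0 < ex N := by linarith
  have hI := H.II_pos hl
  obtain ⟨K, hK, hco⟩ := H.coer hl0 hl
  set m : ℝ := 1 / 2 - 1 / ex N with hm
  have hm0 : 0 < m := by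
    rw [hm, sub_pos]
    exact one_div_lt_one_div_of_lt two_pos hp
  set A : ℕ → ℝ := fun j => QQ l (v j) (v j) with hA
  set B : ℕ → ℝ := fun j => BB (v j) with hB
  have hAB : ∀ j, |A j - B j| ≤ ε j * ‖v j‖ := fun j => by
    have := hd j _ (hv j)
    rwa [dJ_eq, LL_self H.hN] at this
  have hJe : ∀ j, J l (v j) = m * A j + (A j - B j) / ex N := fun j => by
    rw [J_eq, hm]; simp only [hA, hB]; ring
  set R : ℝ := K / m * (τ + 2) + 1 with hR
  have hbd : ∀ᶠ j in atTop, ‖v j‖ ≤ R := by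
    filter_upwards [hJ.eventually (gt_mem_nhds (lt_add_one τ)),
      hε.eventually (gt_mem_nhds one_pos)] with j h1 h2
    by_contra hx
    push Not at hx
    have hR1 : 1 ≤ R := by
      have : 0 ≤ K / m * (τ + 2) := by positivity
      linarith
    set x := ‖v j‖
    have hx0 : 0 < x := by linarith
    have h3 : -(A j - B j) ≤ x := by
      have := (neg_le_abs _).trans (hAB j)
      nlinarith
    have h4 : -(A j - B j) / ex N ≤ x := by
      rw [div_le_iff₀ hp0]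
      nlinarith
    have h5 : m * A j ≤ τ + 1 + x := by
      rw [hJe] at h1
      have : -(A j - B j) / ex N = -((A j - B j) / ex N) := neg_div _ _
      linarith
    have h6 : x ^ 2 ≤ K * A j := hco _ (hv j)
    have h7 : K / m * (τ + 2) * x < x ^ 2 := by
      have : K / m * (τ + 2) < x := by linarith
      nlinarith
    have h8 : K * A j ≤ K / m * (τ + 1 + x) := by
      rw [div_mul_eq_mul_div, le_div_iff₀ hm0]
      nlinarith
    have h9 : K / m * (τ + 1 + x) ≤ K / m * (τ + 2) * x := by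
      rw [mul_assoc]
      refine mul_le_mul_of_nonneg_left ?_ (by positivity)
      nlinarith
    linarith
  have hD : Tendsto (fun j => A j - B j) atTop (𝓝 0) := by
    refine squeeze_zero_norm' (a := fun j => |ε j| * R) ?_ (by simpa using hε.abs.mul_const R)
    filter_upwards [hbd] with j hj
    refine (hAB j).trans ?_
    exact mul_le_mul (le_abs_self _) hj (norm_nonneg _) (abs_nonneg _)
  have hAl : Tendsto A atTop (𝓝 (τ / m)) := by
    have := (hJ.sub (hD.div_const (ex N))).div_const m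
    simp only [zero_div, sub_zero] at this
    refine this.congr fun j => ?_
    rw [hJe]; field_simp; ring
  have hBl : Tendsto B atTop (𝓝 (τ / m)) := by
    have := hAl.sub hD
    simp only [sub_zero] at this
    exact this.congr fun j => by ring
  have ha : 0 < τ / m := by positivity
  have hlim : II Θ l * (τ / m) ^ (2 / ex N) ≤ τ / m :=
    le_of_tendsto_of_tendsto' ((hBl.rpow_const (Or.inl ha.ne')).const_mul _) hAl
      fun j => H.II_le hl (hv j)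
  rw [mul_comm, ← le_div_iff₀ hm0]
  set a := τ / m
  have h1 : II Θ l ≤ a ^ (1 - 2 / ex N) := by
    rw [Real.rpow_sub ha, Real.rpow_one, le_div_iff₀ (by positivity)]
    exact hlim
  have h2 := Real.rpow_le_rpow hI.le h1 (z := 1 / (ex N - 2) * ex N)
    (by have : 0 < ex N - 2 := by linarith
        positivity)
  rw [← Real.rpow_mul ha.le] at h2
  have e : (1 - 2 / ex N) * (1 / (ex N - 2) * ex N) = 1 := by
    have : ex N - 2 ≠ 0 := by linarith
    field_simp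
  rw [e, Real.rpow_one, Real.rpow_mul hI.le] at h2
  exact h2

theorem level_eq (H : Hyp Θ α β c) (hl0 : 0 ≤ l) (hl : l < c) :
    level Θ l = (1 / 2 - 1 / ex N) * tt Θ l ^ ex N := by
  have hm0 : 0 < 1 / 2 - 1 / ex N := by
    rw [sub_pos]
    exact one_div_lt_one_div_of_lt two_pos (ex_gt H.hN)
  refine IsLeast.csInf_eq ⟨⟨?_, H.hasPS hl0 hl⟩, fun τ hτ => H.PS_lower hl0 hl hτ.1 hτ.2⟩
  have := H.tt_pos hl
  positivity

theorem no_ground_state (H : Hyp Θ α β c) (hl0 : 0 ≤ l) (hl : l < c) (u : Pr N) :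
    ¬ IsGroundState Θ l u := by
  rintro ⟨hu, hcr, hJ⟩
  have hp := ex_gt H.hN
  have hp0 : 0 < ex N := by linarith
  have ht := H.tt_pos hl
  have hm0 : 0 < 1 / 2 - 1 / ex N := by
    rw [sub_pos]
    exact one_div_lt_one_div_of_lt two_pos hp
  have h1 := hcr u hu
  rw [dJ_eq, LL_self H.hN, sub_eq_zero] at h1
  rw [J_eq, H.level_eq hl0 hl, h1] at hJ
  have h2 : BB u = tt Θ l ^ ex N := by
    refine mul_left_cancel₀ hm0.ne' ?_
    rw [← hJ]; ring
  have h3 := H.gap hl0 hl hu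
  rw [h1, h2, ← Real.rpow_mul ht.le, mul_div_cancel₀ _ hp0.ne', Real.rpow_two,
    H.tt_pow' hl] at h3
  have h4 : ‖u.1‖ ^ 2 ≤ 0 := by
    by_contra h
    push Not at h
    have : 0 < (c - l) * ‖u.1‖ ^ 2 := mul_pos (by linarith) h
    linarith
  have h5 : u.1 = 0 := by
    rw [← norm_eq_zero]
    exact pow_eq_zero_iff two_ne_zero |>.1 (le_antisymm h4 (by positivity))
  rw [BB_zero H.hN h5] at h2
  exact (Real.rpow_pos_of_pos ht _).ne h2

end Hyp

end Pool.Agent.Lib.MP_ce3dc4_an
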