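import Mathlib

/-!
Definitions used in the statement: `O(2)`-invariant ground states of the supercritical
Brezis-Nirenberg problem.
-/

open MeasureTheory Filter Topology Set
open scoped ContDiff InnerProductSpace

namespace Pool.Agent.Lib.MP_ce3dc4_an

/-- The Euclidean plane, home of the variable `y`. -/
abbrev Pl : Type := EuclideanSpace ℝ (Fin 2)

/-- Euclidean space of dimension `N - 2`, home of the variable `z`. -/
abbrev Zs (N : ℕ) : Type := EuclideanSpace ℝ (Fin (N - 2))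

/-- The exponent `p = 2(N-1)/(N-3)`. -/
noncomputable def ex (N : ℕ) : ℝ := 2 * ((N : ℝ) - 1) / ((N : ℝ) - 3)

namespace St

/-- Euclidean space of dimension `N`, written as the orthogonal product of `Pl` and `Zs N`. -/
def Sp (N : ℕ) : Type := WithLp 2 (Pl × Zs N)

variable {N : ℕ}

noncomputable instance iNorm : NormedAddCommGroup (Sp N) :=
  WithLp.instProdNormedAddCommGroup 2 Pl (Zs N)

noncomputable instance iInner : InnerProductSpace ℝ (Sp N) :=
  WithLp.instProdInnerProductSpace (E := Pl) (F := Zs N)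

instance iMeas : MeasurableSpace (Sp N) := WithLp.measurableSpace 2 (Pl × Zs N)

instance iBorel : BorelSpace (Sp N) := WithLp.borelSpace 2 Pl (Zs N)

instance iFin : FiniteDimensional ℝ (Sp N) := WithLp.instModuleFinite 2 ℝ (Pl × Zs N)

instance iComp : CompleteSpace (Sp N) := WithLp.instProdCompleteSpace 2 Pl (Zs N)

/-- The point `(y, z)`. -/
def pt (y : Pl) (z : Zs N) : Sp N := WithLp.toLp 2 (y, z)

/-- The coordinate `y`. -/
def yc (x : Sp N) : Pl := WithLp.fst x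

/-- The coordinate `z`. -/
def zc (x : Sp N) : Zs N := WithLp.snd x

/-- Lebesgue measure on `Sp N`. -/
noncomputable def vol (N : ℕ) : Measure (Sp N) := volume

/-- Square integrable functions. -/
def L2s (N : ℕ) : Type := Lp ℝ 2 (vol N)

/-- Square integrable vector fields. -/
def L2v (N : ℕ) : Type := Lp (Sp N) 2 (vol N)

noncomputable instance iL2s : NormedAddCommGroup (L2s N) := Lp.instNormedAddCommGroup

noncomputable instance iL2v : NormedAddCommGroup (L2v N) := Lp.instNormedAddCommGroup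

/-- The function (a representative of the class) in a pair. -/
noncomputable def fn (u : L2s N × L2v N) : Sp N → ℝ := u.1.1

/-- The vector field (a representative of the class) in a pair. -/
noncomputable def gr (u : L2s N × L2v N) : Sp N → Sp N := u.2.1

/-- The domain `Ω = {(y, z) : (|y|, z) ∈ Θ}`. -/
def Om (Θ : Set (ℝ × Zs N)) : Set (Sp N) := {x | (‖yc x‖, zc x) ∈ Θ}

/-- The Sobolev space `H^1_0(Ω)`, as pairs (function, weak gradient): the closure in
`L^2 × L^2` of the pairs `(φ, ∇φ)` with `φ` smooth and compactly supported in `Ω`. -/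
def H10 (Ω : Set (Sp N)) : Set (L2s N × L2v N) :=
  closure {u | ∃ φ : Sp N → ℝ, ContDiff ℝ ∞ φ ∧ HasCompactSupport φ ∧ tsupport φ ⊆ Ω ∧
    fn u =ᵐ[vol N] φ ∧ gr u =ᵐ[vol N] gradient φ}

/-- The space `H` of `O(2)`-invariant elements of `H^1_0(Ω)`. -/
def HH (Θ : Set (ℝ × Zs N)) : Set (L2s N × L2v N) :=
  {u | u ∈ H10 (Om Θ) ∧ ∀ g : Pl ≃ₗᵢ[ℝ] Pl,
    (fun x : Sp N => fn u (pt (g (yc x)) (zc x))) =ᵐ[vol N] fn u}

/-- The energy `J_λ`. -/
noncomputable def J (l : ℝ) (u : L2s N × L2v N) : ℝ :=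
  (1 / 2) * (∫ x, ‖gr u x‖ ^ 2 ∂vol N) - (l / 2) * (∫ x, fn u x ^ 2 ∂vol N) -
    (1 / ex N) * ∫ x, |fn u x| ^ ex N ∂vol N

/-- The derivative `J_λ'(u)` evaluated at `w`. -/
noncomputable def dJ (l : ℝ) (u w : L2s N × L2v N) : ℝ :=
  (∫ x, ⟪gr u x, gr w x⟫_ℝ ∂vol N) - l * (∫ x, fn u x * fn w x ∂vol N) -
    ∫ x, |fn u x| ^ (ex N - 2) * fn u x * fn w x ∂vol N

/-- There is a Palais-Smale sequence in `H` at level `τ`: the energies tend to `τ` and the
derivatives tend to zero in the dual of `H`. -/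
def HasPS (Θ : Set (ℝ × Zs N)) (l τ : ℝ) : Prop :=
  ∃ (v : ℕ → L2s N × L2v N) (ε : ℕ → ℝ), (∀ j, v j ∈ HH Θ) ∧
    Tendsto (fun j => J l (v j)) atTop (𝓝 τ) ∧ Tendsto ε atTop (𝓝 0) ∧
    ∀ j, ∀ w ∈ HH Θ, |dJ l (v j) w| ≤ ε j * ‖w‖

/-- The level `ℓ_λ`. -/
noncomputable def level (Θ : Set (ℝ × Zs N)) (l : ℝ) : ℝ := sInf {τ | 0 < τ ∧ HasPS Θ l τ}

/-- Ground states: critical points of `J_λ` on `H` at the level `ℓ_λ`. -/
def IsGroundState (Θ : Set (ℝ × Zs N)) (l : ℝ) (u : L2s N × L2v N) : Prop :=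
  u ∈ HH Θ ∧ (∀ w ∈ HH Θ, dJ l u w = 0) ∧ J l u = level Θ l

end St

end Pool.Agent.Lib.MP_ce3dc4_an
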